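import Pool.Agent.MP_151d89_pr.H95.Mean
import Pool.Agent.MP_151d89_pr.H30W.Spec
import Pool.Agent.MP_151d89_pr.H55.Defs
import Pool.Agent.MP_151d89_pr.H5.Slope
import Pool.Agent.MP_151d89_pr.H67.Rows

/-!
The interface between the lattice inequalities and the large scale block: four properties of the
mean height and of the stream function, and the statements of the passage to the limit.
-/

set_option autoImplicit false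
open MeasureTheory Filter Topology

namespace Pool.Agent.MP_151d89_pr.H9
open Pool.Agent.MP_151d89_pr.H82 Pool.Agent.MP_151d89_pr.H33 Pool.Agent.MP_151d89_pr.H67
open Pool.Agent.MP_151d89_pr.H30 (nrm)
open Pool.Agent.MP_151d89_pr.H5 (ell AF)
open Pool.Agent.MP_151d89_pr.H55 (LipZ Lim nu)

/-- the level function on the lattice -/
noncomputable def nb (l : ℤ × ℤ → ℝ) (z : ℤ × ℤ) : ℝ := ((z.1 : ℝ) + z.2 - l z) / 2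

/-- the parameters of the chord inequality -/
structure Par where
  u1 : ℤ
  u : ℤ
  u2 : ℤ
  k1 : ℤ
  k' : ℤ
  k2 : ℤ
  a1 : ℤ
  a2 : ℤ
  b' : ℤ
  b'' : ℤ
  X0 : ℤ
  Y1 : ℤ

/-- the defect of the chord inequality -/
def gap (P : Par) : ℝ :=
  ((P.k2 : ℝ) - P.k1) *
      ((P.u2 - P.u1) * P.b' - (P.u2 - P.u) * P.a1 - (P.u - P.u1) * P.a2) -
    (P.u2 - P.u1) * (P.k' - P.k1) * (P.b' - P.b'')

/-- all parameters are bounded by B -/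
def Par.bd (P : Par) (B : ℝ) : Prop :=
  ∀ x ∈ [P.u1, P.u, P.u2, P.k1, P.k', P.k2, P.a1, P.a2, P.b', P.b'', P.X0, P.Y1], |(x : ℝ)| ≤ B

/-- the position of a bunch of levels at three times, with margin m -/
def GeoZ (l : ℤ × ℤ → ℝ) (m : ℝ) (P : Par) : Prop :=
  P.u1 < P.u ∧ P.u < P.u2 ∧ P.k1 ≤ P.k' ∧ P.k' ≤ P.k2 ∧ P.b'' ≤ P.b' ∧
    P.k2 + m ≤ nb l (P.u1 + P.a1, P.a1) ∧ P.k2 + m ≤ nb l (P.u2 + P.a2, P.a2) ∧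
    nb l (P.u + P.b', P.b') + m ≤ P.k' ∧ nb l (P.u + P.b'', P.b'') + m ≤ P.k1 ∧
    nb l (P.X0, P.X0 - P.u1) + m ≤ P.k1 ∧ nb l (P.u2 + P.Y1, P.Y1) + m ≤ P.k1

/-- a pressure corner on the lattice with error E -/
def Crn (l Ψ : ℤ × ℤ → ℝ) (E : ℝ) (p q : ℤ × ℤ) (n0 : ℝ) : Prop :=
  p.1 ≤ q.1 ∧ q.2 ≤ p.2 ∧ |nb l p - n0| ≤ E ∧ |nb l q - n0| ≤ E ∧ Ψ q - Ψ p ≤ E

/-- the outcome of the Mermin-Wagner argument -/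
def MWlat (l Ψ : ℤ × ℤ → ℝ) : Prop :=
  ∀ ε : ℝ, 0 < ε → ∀ᶠ n : ℕ in atTop, ∃ z, nrm z = n ∧ |nb l z| ≤ ε * n ∧
    |Ψ z - Ψ (0, 0)| ≤ ε * n

/-- the chord inequality on the lattice -/
def CHlat (l Ψ : ℤ × ℤ → ℝ) : Prop :=
  ∀ B η : ℝ, 0 < η → ∀ᶠ R : ℝ in atTop, ∀ (E n0 : ℝ) (p q : ℤ × ℤ) (P : Par), 0 ≤ E →
    E ≤ B * R → Crn l Ψ E p q n0 → (nrm p : ℝ) ≤ B * R → (nrm q : ℝ) ≤ B * R → P.bd (B * R) →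
    GeoZ l (η * R) P → n0 ≤ P.k1 → p.1 + (P.k2 - n0) + E + η * R ≤ P.X0 →
    q.2 + (P.k2 - n0) + E + η * R ≤ P.Y1 →
      gap P ≤ ((P.u : ℝ) - P.u1) * (P.u2 - P.u) * (P.k1 - n0 + 4 * E) +
        (P.u2 - P.u1) * (P.k2 - P.k1) * (P.k2 - n0 + 4 * E) + η * R ^ 3

/-- the chord inequality without pressure on the lattice -/
def ZVlat (l : ℤ × ℤ → ℝ) : Prop :=
  ∀ B η : ℝ, 0 < η → ∀ᶠ R : ℝ in atTop, ∀ (E : ℝ) (β X : ℤ) (P : Par), 0 ≤ E →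
    |nb l (0, -(3 * β))| ≤ E → E + η * R ≤ β → (β : ℝ) ≤ B * R → 0 ≤ X → (X : ℝ) ≤ B * R →
    P.k2 + η * R ≤ nb l (X, -(2 * β)) → P.bd (B * R) → GeoZ l (η * R) P → 0 ≤ P.k1 →
    P.k2 + E + η * R ≤ P.X0 → P.k2 - β + η * R ≤ P.Y1 →
      gap P ≤ (((P.u : ℝ) - P.u1) * (P.u2 - P.u) + (P.u2 - P.u1) * (P.k2 - P.k1)) *
        (4 * E + P.k2 * X / β) + η * R ^ 3

/-- no long thin oblique bunch on the lattice; the levels are k and k + s -/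
def NBlat (I : ℝ → ℝ → ℝ → ℕ) (l Ψ : ℤ × ℤ → ℝ) : Prop :=
  ∀ al be r B η : ℝ, 0 < al → 0 < be → 0 < r → 0 < η →
    ∀ᶠ s : ℝ in atTop, ∀ (E n0 k : ℝ) (p q : ℤ × ℤ) (x0 y0 : ℤ), 0 ≤ E → E ≤ s →
      Crn l Ψ E p q n0 → (nrm p : ℝ) ≤ B * s → (nrm q : ℝ) ≤ B * s →
      (nrm (x0, y0) : ℝ) ≤ B * s → n0 ≤ k → k + s - n0 ≤ r * s →
      p.1 + (k + s - n0) + E + η * s ≤ x0 →
      q.2 + (k + s - n0) + E + η * s ≤ y0 - I al be r * s * be →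
        ¬ ∀ i : ℕ, i ≤ I al be r →
          nb l (x0 + ⌊i * s * al⌋, y0 - ⌊i * s * be⌋) ≤ k ∧
          k + s ≤ nb l (x0 + ⌊i * s * al⌋ + ⌊r * s⌋, y0 - ⌊i * s * be⌋ + ⌊r * s⌋)

/-- pressure corners along an ultrafilter of scales -/
def Seq (l Ψ : ℤ × ℤ → ℝ) (𝒰 : Ultrafilter ℝ) (X Y n0 : ℝ) : Prop :=
  ∃ B : ℝ, ∀ ε : ℝ, 0 < ε → ∀ᶠ R : ℝ in (𝒰 : Filter ℝ), ∃ p q : ℤ × ℤ,
    Crn l Ψ (ε * R) p q (n0 * R) ∧ (p.1 : ℝ) ≤ (X + ε) * R ∧ (q.2 : ℝ) ≤ (Y + ε) * R ∧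
      (nrm p : ℝ) ≤ B * R ∧ (nrm q : ℝ) ≤ B * R

/-- Row BrCH -/
def BrCHStmt : Prop :=
  ∀ l Ψ 𝒰 h, LipZ l → Lim l 𝒰 h → CHlat l Ψ → ∀ X Y n0, Seq l Ψ 𝒰 X Y n0 →
    H55.CH (nu h) X Y n0

/-- Row BrNB -/
def BrNBStmt : Prop :=
  ∀ I l Ψ 𝒰 h, LipZ l → Lim l 𝒰 h → NBlat I l Ψ → ∀ X Y n0, Seq l Ψ 𝒰 X Y n0 →
    H55.NB I (nu h) X Y n0

/-- Row BrZ -/
def BrZStmt : Prop := ∀ l 𝒰 h, LipZ l → Lim l 𝒰 h → ZVlat l → H55.Zx (nu h)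

/-- Row BrG: free corners and the exit point -/
def BrGStmt : Prop :=
  ∀ l Ψ 𝒰 h, LipZ l → Lim l 𝒰 h → (∀ X Y, Seq l Ψ 𝒰 X Y (nu h (X, Y))) ∧
    (MWlat l Ψ → ∀ L : ℝ, 0 < L → ∃ z : ℝ × ℝ, max |z.1| |z.2| = L ∧ nu h z = 0 ∧
      (0 < z.1 → z.2 < 0 → Seq l Ψ 𝒰 0 z.2 0) ∧ (z.1 < 0 → 0 < z.2 → Seq l Ψ 𝒰 z.1 0 0))

/-- no infinite ascending or descending ray -/
def NoR (μ : Measure Conf) : Prop :=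
  ∀ᵐ f ∂μ, ∀ x e : ℤ × ℤ, |e.1| + |e.2| = 1 →
    (¬ ∀ n : ℕ, f (x + (n : ℤ) • e) = f x + (n : ℤ)) ∧
      ¬ ∀ n : ℕ, f (x + (n : ℤ) • e) = f x - (n : ℤ)

/-- the standing hypotheses -/
structure Std (μ : Measure Conf) : Prop where
  gibbs : Gibbs μ
  triv : Triv μ
  nor : NoR μ
  nd : ¬ ∃ f₀ : Conf, ∀ᵐ f ∂μ, f = f₀

/-- Row MW -/
def MWStmt : Prop := ∀ μ, Std μ → ∀ Ψ, H30W.IsPsi μ Ψ → MWlat (ell μ) Ψ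

/-- Row CH -/
def CHStmt : Prop := ∀ μ, Std μ → ∀ Ψ, H30W.IsPsi μ Ψ → CHlat (ell μ) Ψ

/-- Row NB -/
def NBStmt : Prop := ∃ I, ∀ μ, Std μ → ∀ Ψ, H30W.IsPsi μ Ψ → NBlat I (ell μ) Ψ

/-- Row ZV -/
def ZVStmt : Prop := ∀ μ, Std μ → ∀ Ψ, H30W.IsPsi μ Ψ → ZVlat (ell μ)

/-- Row Red: reduction to the standing hypotheses -/
def RedStmt : Prop :=
  ∀ μ, Gibbs μ → FinalAux.Ext μ → (∃ e, AF μ e) ∨ Std μ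

/-- Row Sym: the class of mean heights is closed under the symmetries -/
def SymStmt : Prop :=
  ∀ μ, Std μ → LipZ (ell μ) ∧ H27.NoRay μ ∧ H30W.NoDesc μ ∧
    (∃ ν, Std ν ∧ ell ν = fun z => -ell μ z) ∧
    (∃ ν, Std ν ∧ ell ν = fun z => ell μ (z.2, z.1)) ∧
    ∃ ν, Std ν ∧ ell ν = fun z => ell μ (-z.1, z.2)

/-- the assembly -/
theorem top (hBig : H55.BigStmt) (hPsi : H30W.PsiStmt) (hMW : MWStmt) (hCH : CHStmt)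
    (hNB : NBStmt) (hZV : ZVStmt) (b1 : BrCHStmt) (b2 : BrNBStmt) (b3 : BrZStmt) (b4 : BrGStmt)
    (hRed : RedStmt) (hSym : SymStmt) (μ : Measure Conf) (hμ : Gibbs μ) (hE : FinalAux.Ext μ) :
    ∃ e, AF μ e := by
  rcases hRed μ hμ hE with h | hs
  · exact h
  obtain ⟨I, hI⟩ := hNB
  obtain ⟨e, he, h⟩ := hBig I (fun l => ∃ ν, Std ν ∧ ell ν = l)
    (by rintro l ⟨ν, hν, rfl⟩; exact (hSym ν hν).1)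
    (by rintro l ⟨ν, hν, rfl⟩; exact (hSym ν hν).2.2.2.1)
    (by rintro l ⟨ν, hν, rfl⟩; exact (hSym ν hν).2.2.2.2.1)
    (by rintro l ⟨ν, hν, rfl⟩; exact (hSym ν hν).2.2.2.2.2)
    (by
      rintro l 𝒰 h ⟨ν, hν, rfl⟩ hl
      have hL := (hSym ν hν).1
      obtain ⟨Ψ, hΨ⟩ := hPsi ν hν.gibbs hν.triv (hSym ν hν).2.2.1
      have pr : ∀ X Y n0, Seq (ell ν) Ψ 𝒰 X Y n0 → H55.Pres I (nu h) X Y n0 := fun X Y n0 hq =>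
        ⟨b1 _ Ψ 𝒰 h hL hl (hCH ν hν Ψ hΨ) X Y n0 hq, b2 I _ Ψ 𝒰 h hL hl (hI ν hν Ψ hΨ) X Y n0 hq⟩
      refine ⟨fun X Y => pr X Y _ ((b4 _ Ψ 𝒰 h hL hl).1 X Y),
        b3 _ 𝒰 h hL hl (hZV ν hν Ψ hΨ), fun L hL0 => ?_⟩
      obtain ⟨z, h1, h2, h3, h4⟩ := (b4 _ Ψ 𝒰 h hL hl).2 (hMW ν hν Ψ hΨ) L hL0
      exact ⟨z, h1, h2, fun a b => pr _ _ _ (h3 a b), fun a b => pr _ _ _ (h4 a b)⟩)
    (ell μ) ⟨μ, hs, rfl⟩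
  exact ⟨e, H5.slope_row μ hμ (H5.cheb_row μ hμ hs.triv) e he h⟩

end Pool.Agent.MP_151d89_pr.H9
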