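import Pool.Agent.MP_151d89_pr.H9.Spec

/-!
The class of mean heights is closed under the symmetries.
-/

set_option autoImplicit false
open MeasureTheory Filter Topology

namespace Pool.Agent.MP_151d89_pr.H9
open Pool.Agent.MP_151d89_pr.H82 Pool.Agent.MP_151d89_pr.H33 Pool.Agent.MP_151d89_pr.H67
open Pool.Agent.MP_151d89_pr.H30 (nrm pt dir Run)
open Pool.Agent.MP_151d89_pr.H5 (ell AF)
open Pool.Agent.MP_151d89_pr.H55 (LipZ Lim nu)

namespace SymA

theorem ell0 (μ : Measure Conf) : ell μ (0, 0) = 0 := by simp [ell]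

/-- the standing hypotheses pass to the image under a linear isometry and a sign -/
theorem std_T {μ : Measure Conf} (hs : Std μ) (φ : ℤ × ℤ ≃ ℤ × ℤ) (hφ : FinalAux.Iso φ)
    (h0 : φ (0, 0) = (0, 0)) (hl : ∀ (x e : ℤ × ℤ) (n : ℤ), φ (x + n • e) = φ x + n • φ e)
    {ε : ℤ} (hε : ε = 1 ∨ ε = -1) : Std (μ.map (FinalAux.T φ ε 0)) := by
  have h : ε * ε = 1 := by rcases hε with rfl | rfl <;> rfl
  refine ⟨FinalAux.gibbs_T hs.gibbs hφ h 0, H5.triv_T hs.triv φ ε 0, ?_, ?_⟩
  · refine (FinalAux.ae_T μ φ h 0 _).2 ?_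
    filter_upwards [hs.nor] with f hf x e he
    have he' : |(φ e).1| + |(φ e).2| = 1 := by
      have := hφ e (0, 0)
      rw [h0] at this
      simpa [he] using this
    obtain ⟨a, b⟩ := hf (φ x) (φ e) he'
    simp only [FinalAux.T, hl, add_zero]
    rcases hε with rfl | rfl
    · exact ⟨fun k => a fun n => by have := k n; omega, fun k => b fun n => by have := k n; omega⟩
    · exact ⟨fun k => b fun n => by have := k n; omega, fun k => a fun n => by have := k n; omega⟩
  · rintro ⟨g, hg⟩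
    refine hs.nd ⟨FinalAux.T φ.symm ε (-(ε * 0)) g, ?_⟩
    filter_upwards [(FinalAux.ae_T μ φ h 0 _).1 hg] with f hf
    rw [← hf, FinalAux.T_T φ h 0 f]

/-- reflection in the vertical axis -/
def refl1 : ℤ × ℤ ≃ ℤ × ℤ where
  toFun z := (-z.1, z.2)
  invFun z := (-z.1, z.2)
  left_inv z := by simp
  right_inv z := by simp

theorem dir_unit (b : Bool) : |(dir b).1| + |(dir b).2| = 1 := by cases b <;> simp [dir]

theorem dir_unit' (b : Bool) : |(-dir b).1| + |(-dir b).2| = 1 := by cases b <;> simp [dir]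

theorem pt_neg (b : Bool) (x : ℤ × ℤ) (l : ℤ) : pt b x (-l) = x + l • (-dir b) := by
  simp [pt]

theorem pt_back (b : Bool) (x : ℤ × ℤ) (l : ℤ) : pt b (pt b x (-l)) l = x := by
  simp [pt]

theorem noRay {μ : Measure Conf} (h : NoR μ) : H27.NoRay μ := by
  filter_upwards [h] with f hf b x
  constructor
  · by_contra k
    push Not at k
    exact (hf x (dir b) (dir_unit b)).1 fun n => k n n le_rfl
  · by_contra k
    push Not at k
    refine (hf x (-dir b) (dir_unit' b)).2 fun n => ?_
    have := k n n le_rfl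
    rw [pt_back] at this
    rw [← pt_neg]
    omega

theorem noDesc {μ : Measure Conf} (h : NoR μ) : H30W.NoDesc μ := by
  filter_upwards [h] with f hf b x
  constructor
  · by_contra k
    push Not at k
    exact (hf x (dir b) (dir_unit b)).2 fun n => k n
  · by_contra k
    push Not at k
    refine (hf x (-dir b) (dir_unit' b)).1 fun n => ?_
    rw [← pt_neg]
    exact k n

end SymA
open SymA

theorem sym_row : SymStmt := by
  intro μ hs
  refine ⟨⟨ell0 μ, fun z w => ?_⟩, noRay hs.nor, noDesc hs.nor, ?_, ?_, ?_⟩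
  · have := H5.EllAux.part1 hs.gibbs z w
    simpa [H5.d1] using this
  · refine ⟨_, std_T hs (Equiv.refl _) (fun x y => rfl) rfl (fun x e n => rfl) (Or.inr rfl), ?_⟩
    funext z
    rw [H95.ell_T hs.gibbs]
    simp [ell0]
  · refine ⟨_, std_T hs (Equiv.prodComm _ _) (fun x y => by simp [add_comm]) rfl
      (fun x e n => by ext <;> simp) (Or.inl rfl), ?_⟩
    funext z
    rw [H95.ell_T hs.gibbs]
    have : (Equiv.prodComm ℤ ℤ) z = (z.2, z.1) := rfl
    simp [ell0, this]
  · refine ⟨_, std_T hs refl1 (fun x y => ?_) rfl (fun x e n => ?_) (Or.inl rfl), ?_⟩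
    · show |-x.1 - -y.1| + |x.2 - y.2| = _
      rw [show -x.1 - -y.1 = -(x.1 - y.1) by ring, abs_neg]
    · show (-(x + n • e).1, (x + n • e).2) = (-x.1, x.2) + n • (-e.1, e.2)
      ext
      · simp [add_comm]
      · simp
    · funext z
      rw [H95.ell_T hs.gibbs]
      have : refl1 z = (-z.1, z.2) := rfl
      have h0 : refl1 (0, 0) = (0, 0) := rfl
      simp [ell0, this, h0]

end Pool.Agent.MP_151d89_pr.H9
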