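import Pool.Agent.MP_151d89_pr.H9.Spec

/-!
Free pressure corners and the exit point in the limit.
-/

set_option autoImplicit false
open MeasureTheory Filter Topology

namespace Pool.Agent.MP_151d89_pr.H9
open Pool.Agent.MP_151d89_pr.H82 Pool.Agent.MP_151d89_pr.H33 Pool.Agent.MP_151d89_pr.H67
open Pool.Agent.MP_151d89_pr.H30 (nrm)
open Pool.Agent.MP_151d89_pr.H5 (ell AF)
open Pool.Agent.MP_151d89_pr.H55 (LipZ Lim nu)

namespace BrGA

theorem fl_tend (x : ℝ) : Tendsto (fun R : ℝ => ((⌊R * x⌋ : ℤ) : ℝ) / R) atTop (𝓝 x) := by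
  have h0 : Tendsto (fun R : ℝ => R⁻¹) atTop (𝓝 0) := tendsto_inv_atTop_zero
  have h1 : Tendsto (fun R : ℝ => x - R⁻¹) atTop (𝓝 x) := by
    simpa using (tendsto_const_nhds (x := x)).sub h0
  refine tendsto_of_tendsto_of_tendsto_of_le_of_le' h1 tendsto_const_nhds ?_ ?_
  · filter_upwards [eventually_gt_atTop (0 : ℝ)] with R hR
    rw [le_div_iff₀ hR]
    have := Int.lt_floor_add_one (R * x)
    have e : (x - R⁻¹) * R = R * x - 1 := by field_simp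
    rw [e]; linarith
  · filter_upwards [eventually_gt_atTop (0 : ℝ)] with R hR
    rw [div_le_iff₀ hR]
    have := Int.floor_le (R * x)
    linarith

theorem diag {α : Type} [Nonempty α] (Q : ℕ → ℝ → α → Prop)
    (mono : ∀ n a e e', e ≤ e' → Q n e a → Q n e' a)
    (h : ∀ e : ℝ, 0 < e → ∀ᶠ n in atTop, ∃ a, Q n e a) :
    ∃ z : ℕ → α, ∀ e : ℝ, 0 < e → ∀ᶠ n in atTop, Q n e (z n) := by
  classical
  let k : ℕ → ℕ := fun n => Nat.findGreatest (fun k => ∃ a, Q n (1 / ((k : ℝ) + 1)) a) n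
  refine ⟨fun n => Classical.epsilon fun a => Q n (1 / ((k n : ℝ) + 1)) a, fun e he => ?_⟩
  obtain ⟨k0, hk0⟩ := exists_nat_one_div_lt he
  filter_upwards [h (1 / ((k0 : ℝ) + 1)) Nat.one_div_pos_of_nat, eventually_ge_atTop k0]
    with n hn hkn
  have h1 : k0 ≤ k n := Nat.le_findGreatest hkn hn
  have h2 : ∃ a, Q n (1 / ((k n : ℝ) + 1)) a :=
    Nat.findGreatest_spec (P := fun k => ∃ a, Q n (1 / ((k : ℝ) + 1)) a) hkn hn
  exact mono n _ _ _ ((Nat.one_div_le_one_div h1).trans hk0.le) (Classical.epsilon_spec h2)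

theorem nb_tend (hS : H55.LimSeqStmt) {l : ℤ × ℤ → ℝ} {𝒰 : Ultrafilter ℝ} {h : ℝ × ℝ → ℝ}
    (hl : LipZ l) (hL : Lim l 𝒰 h) (p : ℝ → ℤ × ℤ) (z : ℝ × ℝ)
    (h1 : Tendsto (fun R => ((p R).1 : ℝ) / R) 𝒰 (𝓝 z.1))
    (h2 : Tendsto (fun R => ((p R).2 : ℝ) / R) 𝒰 (𝓝 z.2)) :
    Tendsto (fun R => nb l (p R) / R) 𝒰 (𝓝 (nu h z)) := by
  have := ((h1.add h2).sub (hS l 𝒰 h hl hL p z h1 h2)).div_const 2
  refine this.congr fun R => ?_
  unfold nb; ring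

theorem near {F : Filter ℝ} (hF : F ≤ atTop) {u : ℝ → ℝ} {a : ℝ}
    (h : Tendsto (fun R => u R / R) F (𝓝 a)) {ε : ℝ} (hε : 0 < ε) :
    ∀ᶠ R in F, |u R - a * R| ≤ ε * R := by
  filter_upwards [hF (eventually_gt_atTop (0 : ℝ)), (Metric.tendsto_nhds.mp h) ε hε] with R hR h1
  rw [Real.dist_eq] at h1
  have e : u R - a * R = (u R / R - a) * R := by field_simp
  rw [e, abs_mul, abs_of_pos hR]
  exact mul_le_mul_of_nonneg_right h1.le hR.le

theorem nrm_le (p : ℤ × ℤ) : (nrm p : ℝ) ≤ |(p.1 : ℝ)| + |(p.2 : ℝ)| := by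
  have : nrm p ≤ |p.1| + |p.2| :=
    max_le (by have := abs_nonneg p.2; omega) (by have := abs_nonneg p.1; omega)
  exact_mod_cast this

theorem abs_bd {u a R : ℝ} (hR : 0 < R) (h : |u - a * R| ≤ 1 * R) : |u| ≤ (|a| + 1) * R := by
  have := abs_add_le (u - a * R) (a * R)
  rw [sub_add_cancel, abs_mul, abs_of_pos hR] at this
  linarith

theorem seq_of (hS : H55.LimSeqStmt) {l Ψ : ℤ × ℤ → ℝ} {𝒰 : Ultrafilter ℝ} {h : ℝ × ℝ → ℝ}
    (hl : LipZ l) (hL : Lim l 𝒰 h) (p q : ℝ → ℤ × ℤ) (a b : ℝ × ℝ) (n0 : ℝ)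
    (p1 : Tendsto (fun R => ((p R).1 : ℝ) / R) 𝒰 (𝓝 a.1))
    (p2 : Tendsto (fun R => ((p R).2 : ℝ) / R) 𝒰 (𝓝 a.2))
    (q1 : Tendsto (fun R => ((q R).1 : ℝ) / R) 𝒰 (𝓝 b.1))
    (q2 : Tendsto (fun R => ((q R).2 : ℝ) / R) 𝒰 (𝓝 b.2))
    (ha : nu h a = n0) (hb : nu h b = n0)
    (ho : ∀ᶠ R in (𝒰 : Filter ℝ), (p R).1 ≤ (q R).1 ∧ (q R).2 ≤ (p R).2)
    (hP : ∀ ε : ℝ, 0 < ε → ∀ᶠ R in (𝒰 : Filter ℝ), Ψ (q R) - Ψ (p R) ≤ ε * R) :
    Seq l Ψ 𝒰 a.1 b.2 n0 := by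
  refine ⟨|a.1| + |a.2| + |b.1| + |b.2| + 2, fun ε hε => ?_⟩
  have n1 := nb_tend hS hl hL p a p1 p2
  have n2 := nb_tend hS hl hL q b q1 q2
  rw [ha] at n1
  rw [hb] at n2
  filter_upwards [hL.1 (eventually_gt_atTop (0 : ℝ)), ho, hP ε hε, near hL.1 n1 hε,
    near hL.1 n2 hε, near hL.1 p1 hε, near hL.1 q2 hε, near hL.1 p1 one_pos,
    near hL.1 p2 one_pos, near hL.1 q1 one_pos, near hL.1 q2 one_pos]
    with R hR e1 e2 e3 e4 e5 e6 e7 e8 e9 e10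
  have hR' : (0 : ℝ) < R := hR
  have f7 := abs_bd hR' e7
  have f8 := abs_bd hR' e8
  have f9 := abs_bd hR' e9
  have f10 := abs_bd hR' e10
  have g1 := mul_nonneg (abs_nonneg a.1) hR'.le
  have g2 := mul_nonneg (abs_nonneg a.2) hR'.le
  have g3 := mul_nonneg (abs_nonneg b.1) hR'.le
  have g4 := mul_nonneg (abs_nonneg b.2) hR'.le
  refine ⟨p R, q R, ⟨e1.1, e1.2, e3, e4, e2⟩, ?_, ?_, ?_, ?_⟩
  · have := (abs_le.mp e5).2
    linarith
  · have := (abs_le.mp e6).2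
    linarith
  · have := nrm_le (p R)
    linarith
  · have := nrm_le (q R)
    linarith

theorem ulim (𝒰 : Ultrafilter ℝ) (u : ℝ → ℝ) (B : ℝ)
    (h : ∀ᶠ R in (𝒰 : Filter ℝ), |u R| ≤ B) : ∃ a, Tendsto u 𝒰 (𝓝 a) := by
  obtain ⟨a, -, ha⟩ := (isCompact_Icc (a := -B) (b := B)).ultrafilter_le_nhds (𝒰.map u)
    (by rw [Ultrafilter.coe_map, le_principal_iff]; exact h.mono fun R hR => abs_le.mp hR)
  exact ⟨a, ha⟩

end BrGA

open BrGA

theorem brg_row (hS : H55.LimSeqStmt) : BrGStmt := by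
  intro l Ψ 𝒰 h hl hL
  constructor
  · intro X Y
    have a1 := (fl_tend X).mono_left hL.1
    have a2 := (fl_tend Y).mono_left hL.1
    refine seq_of hS hl hL (fun R => (⌊R * X⌋, ⌊R * Y⌋)) (fun R => (⌊R * X⌋, ⌊R * Y⌋))
      (X, Y) (X, Y) _ a1 a2 a1 a2 rfl rfl (Eventually.of_forall fun R => ⟨le_rfl, le_rfl⟩)
      fun ε hε => ?_
    filter_upwards [hL.1 (eventually_gt_atTop (0 : ℝ))] with R hR
    have hR' : (0 : ℝ) < R := hR
    rw [sub_self]; positivity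
  · intro hM L hL0
    obtain ⟨z, hz⟩ := diag (fun n e (a : ℤ × ℤ) => nrm a = n ∧ |nb l a| ≤ e * n ∧
        |Ψ a - Ψ (0, 0)| ≤ e * n)
      (fun n a e e' he hq => ⟨hq.1,
        hq.2.1.trans (mul_le_mul_of_nonneg_right he (Nat.cast_nonneg n)),
        hq.2.2.trans (mul_le_mul_of_nonneg_right he (Nat.cast_nonneg n))⟩) hM
    have t1 : Tendsto (fun R : ℝ => ⌊L * R⌋₊) 𝒰 atTop :=
      (tendsto_nat_floor_atTop.comp (tendsto_id.const_mul_atTop hL0)).mono_left hL.1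
    have t2 : Tendsto (fun R : ℝ => (⌊L * R⌋₊ : ℝ) / R) 𝒰 (𝓝 L) :=
      (tendsto_nat_floor_mul_div_atTop hL0.le).mono_left hL.1
    set p : ℝ → ℤ × ℤ := fun R => z ⌊L * R⌋₊ with hp
    have hq : ∀ ε : ℝ, 0 < ε → ∀ᶠ R in (𝒰 : Filter ℝ), |nb l (p R)| ≤ ε * R ∧
        |Ψ (p R) - Ψ (0, 0)| ≤ ε * R := by
      intro ε hε
      filter_upwards [hL.1 (eventually_gt_atTop (0 : ℝ)), t1 (hz (ε / L) (div_pos hε hL0))]
        with R hR h1
      have hR' : (0 : ℝ) < R := hR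
      have h2 : (⌊L * R⌋₊ : ℝ) ≤ L * R := Nat.floor_le (by positivity)
      have h3 : ε / L * (⌊L * R⌋₊ : ℝ) ≤ ε * R := by
        calc _ ≤ ε / L * (L * R) := mul_le_mul_of_nonneg_left h2 (div_pos hε hL0).le
          _ = ε * R := by field_simp
      exact ⟨h1.2.1.trans h3, h1.2.2.trans h3⟩
    have hn : ∀ᶠ R in (𝒰 : Filter ℝ),
        max |((p R).1 : ℝ) / R| |((p R).2 : ℝ) / R| = (⌊L * R⌋₊ : ℝ) / R := by
      filter_upwards [hL.1 (eventually_gt_atTop (0 : ℝ)), t1 (hz 1 one_pos)] with R hR h1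
      have hR' : (0 : ℝ) < R := hR
      have h2 : max |(p R).1| |(p R).2| = (⌊L * R⌋₊ : ℤ) := h1.1
      have h3 : max |((p R).1 : ℝ)| |((p R).2 : ℝ)| = (⌊L * R⌋₊ : ℝ) := by exact_mod_cast h2
      rw [abs_div, abs_div, abs_of_pos hR', max_div_div_right hR'.le, h3]
    have hb : ∀ᶠ R in (𝒰 : Filter ℝ), max |((p R).1 : ℝ) / R| |((p R).2 : ℝ) / R| ≤ L + 1 := by
      filter_upwards [hn, t2.eventually (gt_mem_nhds (lt_add_one L))] with R h1 h2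
      rw [h1]; exact h2.le
    obtain ⟨x, hx⟩ := ulim 𝒰 (fun R => ((p R).1 : ℝ) / R) (L + 1)
      (hb.mono fun R hR => (le_max_left _ _).trans hR)
    obtain ⟨y, hy⟩ := ulim 𝒰 (fun R => ((p R).2 : ℝ) / R) (L + 1)
      (hb.mono fun R hR => (le_max_right _ _).trans hR)
    have hmax : max |x| |y| = L :=
      tendsto_nhds_unique ((hx.abs.max hy.abs).congr' hn) t2
    have hnu : nu h (x, y) = 0 := by
      have n1 := nb_tend hS hl hL p (x, y) hx hy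
      refine tendsto_nhds_unique n1 (Metric.tendsto_nhds.mpr fun ε hε => ?_)
      filter_upwards [hL.1 (eventually_gt_atTop (0 : ℝ)), hq (ε / 2) (half_pos hε)] with R hR h1
      have hR' : (0 : ℝ) < R := hR
      rw [Real.dist_eq, sub_zero, abs_div, abs_of_pos hR', div_lt_iff₀ hR']
      have := mul_pos hε hR'
      linarith [h1.1]
    have z0 : Tendsto (fun R : ℝ => (((0 : ℤ) : ℝ)) / R) 𝒰 (𝓝 0) := by simp
    have hn0 : nu h (0, 0) = 0 := by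
      have n1 := nb_tend hS hl hL (fun _ => (0, 0)) (0, 0) z0 z0
      have e : (fun R : ℝ => nb l (0, 0) / R) = fun _ => (0 : ℝ) := by
        funext R; simp [nb, hl.1]
      rw [e] at n1
      exact tendsto_nhds_unique n1 tendsto_const_nhds
    have pos : ∀ {u : ℝ → ℤ} {a : ℝ}, Tendsto (fun R => (u R : ℝ) / R) 𝒰 (𝓝 a) → 0 < a →
        ∀ᶠ R in (𝒰 : Filter ℝ), 0 ≤ u R := by
      intro u a hu ha
      filter_upwards [hL.1 (eventually_gt_atTop (0 : ℝ)), hu.eventually (lt_mem_nhds ha)]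
        with R hR h1
      have hR' : (0 : ℝ) < R := hR
      have h2 : (0 : ℝ) < u R := by
        have := mul_pos h1 hR'
        rwa [div_mul_cancel₀ _ hR'.ne'] at this
      exact_mod_cast h2.le
    have ng : ∀ {u : ℝ → ℤ} {a : ℝ}, Tendsto (fun R => (u R : ℝ) / R) 𝒰 (𝓝 a) → a < 0 →
        ∀ᶠ R in (𝒰 : Filter ℝ), u R ≤ 0 := by
      intro u a hu ha
      have := pos (u := fun R => -u R) (a := -a) (by simpa [neg_div] using hu.neg) (by linarith)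
      exact this.mono fun R hR => by omega
    refine ⟨(x, y), hmax, hnu, fun h1 h2 => ?_, fun h1 h2 => ?_⟩
    · exact seq_of hS hl hL (fun _ => (0, 0)) p (0, 0) (x, y) 0 z0 z0 hx hy hn0 hnu
        ((pos hx h1).and (ng hy h2))
        fun ε hε => (hq ε hε).mono fun R hR => (abs_le.mp hR.2).2
    · refine seq_of hS hl hL p (fun _ => (0, 0)) (x, y) (0, 0) 0 hx hy z0 z0 hnu hn0
        ((ng hx h1).and (pos hy h2)) fun ε hε => (hq ε hε).mono fun R hR => ?_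
      have := (abs_le.mp hR.2).1
      linarith

end Pool.Agent.MP_151d89_pr.H9
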