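import Pool.Agent.MP_151d89_pr.H9.Spec

/-! The passage to the limit in the statement on long thin bunches. -/

set_option autoImplicit false
open MeasureTheory Filter Topology

namespace Pool.Agent.MP_151d89_pr.H9
open Pool.Agent.MP_151d89_pr.H30 (nrm)
open Pool.Agent.MP_151d89_pr.H55 (LipZ Lim nu)

namespace BrNBA

theorem fl (c : ℝ) (g : ℝ → ℝ) (hg : ∀ R, g R = c * R) :
    Tendsto (fun R => ((⌊g R⌋ : ℤ) : ℝ) / R) atTop (𝓝 c) := by
  have h1 : Tendsto (fun R : ℝ => c - R⁻¹) atTop (𝓝 (c - 0)) :=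
    tendsto_const_nhds.sub tendsto_inv_atTop_zero
  rw [sub_zero] at h1
  refine tendsto_of_tendsto_of_tendsto_of_le_of_le' h1 tendsto_const_nhds ?_ ?_
  · filter_upwards [eventually_gt_atTop (0 : ℝ)] with R hR
    rw [le_div_iff₀ hR, sub_mul, inv_mul_cancel₀ hR.ne', hg]
    exact (Int.sub_one_lt_floor _).le
  · filter_upwards [eventually_gt_atTop (0 : ℝ)] with R hR
    rw [div_le_iff₀ hR, hg]
    exact Int.floor_le _

theorem nbT (hS : H55.LimSeqStmt) {l : ℤ × ℤ → ℝ} {𝒰 : Ultrafilter ℝ} {h : ℝ × ℝ → ℝ}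
    (hL : LipZ l) (hl : Lim l 𝒰 h) (p : ℝ → ℤ × ℤ) (z : ℝ × ℝ)
    (h1 : Tendsto (fun R => ((p R).1 : ℝ) / R) atTop (𝓝 z.1))
    (h2 : Tendsto (fun R => ((p R).2 : ℝ) / R) atTop (𝓝 z.2)) :
    Tendsto (fun R => nb l (p R) / R) 𝒰 (𝓝 (nu h z)) := by
  have a1 := h1.mono_left hl.1
  have a2 := h2.mono_left hl.1
  have a3 := hS l 𝒰 h hL hl p z a1 a2
  have a4 := ((a1.add a2).sub a3).div_const 2
  refine a4.congr fun R => ?_
  unfold nb
  ring

theorem nrm_le (x y : ℤ) : (nrm (x, y) : ℝ) ≤ |(x : ℝ)| + |(y : ℝ)| := by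
  have : (nrm (x, y) : ℤ) ≤ |x| + |y| := by
    exact max_le (le_add_of_nonneg_right (abs_nonneg y)) (le_add_of_nonneg_left (abs_nonneg x))
  exact_mod_cast this

theorem abs_fl (t : ℝ) : |((⌊t⌋ : ℤ) : ℝ)| ≤ |t| + 1 := by
  have h1 := Int.floor_le t
  have h2 := Int.sub_one_lt_floor t
  have h3 := le_abs_self t
  have h4 := neg_abs_le t
  rw [abs_le]
  constructor <;> linarith

end BrNBA
open BrNBA

theorem brnb_row (hS : H55.LimSeqStmt) : BrNBStmt := by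
  intro I l Ψ 𝒰 h hL hl hNB X Y n0 hq al be r o k1 k2 hal hbe hr h1 h2 h3 h4 h5 h6
  obtain ⟨B0, hB0⟩ := hq
  obtain ⟨d, hd⟩ : ∃ d, d = k2 - k1 := ⟨_, rfl⟩
  rw [← hd] at h3 h5 h6
  have d0 : 0 < d := by linarith
  obtain ⟨ep, e0, e1, e2, e3⟩ : ∃ ep : ℝ, 0 < ep ∧ ep ≤ d ∧ X + k2 - n0 + 4 * ep ≤ o.1 ∧
      Y + k2 - n0 + 4 * ep ≤ o.2 - I al be r * d * be := by
    refine ⟨min d (min ((o.1 - (X + k2 - n0)) / 4)
      ((o.2 - I al be r * d * be - (Y + k2 - n0)) / 4)), ?_, min_le_left _ _, ?_, ?_⟩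
    · refine lt_min d0 (lt_min ?_ ?_) <;> linarith
    · have := (min_le_right d _).trans (min_le_left ((o.1 - (X + k2 - n0)) / 4)
        ((o.2 - I al be r * d * be - (Y + k2 - n0)) / 4))
      linarith
    · have := (min_le_right d _).trans (min_le_right ((o.1 - (X + k2 - n0)) / 4)
        ((o.2 - I al be r * d * be - (Y + k2 - n0)) / 4))
      linarith
  have t1 : Tendsto (fun R : ℝ => d * R) 𝒰 atTop :=
    (Tendsto.const_mul_atTop d0 tendsto_id).mono_left hl.1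
  have E1 := t1.eventually
    (hNB al be r ((|B0| + |o.1| + |o.2| + 2) / d) (ep / d) hal hbe hr (div_pos e0 d0))
  have E2 := hB0 ep e0
  have E3 : ∀ᶠ R : ℝ in (𝒰 : Filter ℝ), 1 ≤ R ∧ 1 / ep ≤ R :=
    hl.1 ((eventually_ge_atTop 1).and (eventually_ge_atTop (1 / ep)))
  have fx := fl o.1 (fun R => R * o.1) fun R => mul_comm _ _
  have fy := fl o.2 (fun R => R * o.2) fun R => mul_comm _ _
  have fr := fl (r * d) (fun R => r * (d * R)) fun R => by ring
  have E4 : ∀ᶠ R : ℝ in (𝒰 : Filter ℝ), ∀ i ∈ Finset.range (I al be r + 1),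
      nb l (⌊R * o.1⌋ + ⌊i * (d * R) * al⌋, ⌊R * o.2⌋ - ⌊i * (d * R) * be⌋) / R < k1 ∧
      k2 < nb l (⌊R * o.1⌋ + ⌊i * (d * R) * al⌋ + ⌊r * (d * R)⌋,
        ⌊R * o.2⌋ - ⌊i * (d * R) * be⌋ + ⌊r * (d * R)⌋) / R := by
    rw [Finset.eventually_all]
    intro i hi
    obtain ⟨g1, g2⟩ := h6 i (Nat.lt_succ_iff.mp (Finset.mem_range.mp hi))
    have fa := fl (i * d * al) (fun R => i * (d * R) * al) fun R => by ring
    have fb := fl (i * d * be) (fun R => i * (d * R) * be) fun R => by ring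
    have T1 := nbT hS hL hl
      (fun R => (⌊R * o.1⌋ + ⌊i * (d * R) * al⌋, ⌊R * o.2⌋ - ⌊i * (d * R) * be⌋))
      (o.1 + i * d * al, o.2 - i * d * be)
      ((fx.add fa).congr fun R => by push_cast; ring)
      ((fy.sub fb).congr fun R => by push_cast; ring)
    have T2 := nbT hS hL hl
      (fun R => (⌊R * o.1⌋ + ⌊i * (d * R) * al⌋ + ⌊r * (d * R)⌋,
        ⌊R * o.2⌋ - ⌊i * (d * R) * be⌋ + ⌊r * (d * R)⌋))
      (o.1 + i * d * al + r * d, o.2 - i * d * be + r * d)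
      (((fx.add fa).add fr).congr fun R => by push_cast; ring)
      (((fy.sub fb).add fr).congr fun R => by push_cast; ring)
    exact (T1.eventually (gt_mem_nhds g1)).and (T2.eventually (lt_mem_nhds g2))
  obtain ⟨R, ⟨F1, ⟨p, q, c1, c2, c3, c4, c5⟩⟩, ⟨R1, R2⟩, F4⟩ :=
    ((E1.and E2).and (E3.and E4)).exists
  have R0 : 0 < R := by linarith
  have hB : (|B0| + |o.1| + |o.2| + 2) / d * (d * R) = (|B0| + |o.1| + |o.2| + 2) * R := by
    field_simp
  have hη : ep / d * (d * R) = ep * R := by field_simp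
  have hep : 1 ≤ ep * R := by
    rw [div_le_iff₀ e0] at R2
    linarith
  have a0 := abs_nonneg B0
  have a1 := abs_nonneg o.1
  have a2 := abs_nonneg o.2
  have bB : B0 * R ≤ (|B0| + |o.1| + |o.2| + 2) * R :=
    mul_le_mul_of_nonneg_right (by linarith [le_abs_self B0]) R0.le
  refine F1 (ep * R) (n0 * R) (k1 * R) p q ⌊R * o.1⌋ ⌊R * o.2⌋ (by positivity)
    (mul_le_mul_of_nonneg_right e1 R0.le) c1 (by rw [hB]; linarith) (by rw [hB]; linarith)
    ?_ (mul_le_mul_of_nonneg_right h1.le R0.le) ?_ ?_ ?_ ?_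
  · rw [hB]
    have b1 := abs_fl (R * o.1)
    have b2 := abs_fl (R * o.2)
    rw [abs_mul, abs_of_pos R0] at b1 b2
    have b3 := nrm_le ⌊R * o.1⌋ ⌊R * o.2⌋
    nlinarith [mul_nonneg a0 R0.le]
  · have := mul_le_mul_of_nonneg_right h3 R0.le
    have e : k1 * R + d * R - n0 * R = (k2 - n0) * R := by rw [hd]; ring
    rw [e]
    linarith
  · rw [hη]
    have b1 := Int.sub_one_lt_floor (R * o.1)
    have b2 := mul_le_mul_of_nonneg_right e2 R0.le
    have e : k1 * R + d * R - n0 * R = (k2 - n0) * R := by rw [hd]; ring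
    rw [e]
    nlinarith
  · rw [hη]
    have b1 := Int.sub_one_lt_floor (R * o.2)
    have b2 := mul_le_mul_of_nonneg_right e3 R0.le
    have e : k1 * R + d * R - n0 * R = (k2 - n0) * R := by rw [hd]; ring
    rw [e]
    nlinarith
  · intro i hi
    obtain ⟨g1, g2⟩ := F4 i (Finset.mem_range.mpr (Nat.lt_succ_of_le hi))
    rw [div_lt_iff₀ R0] at g1
    rw [lt_div_iff₀ R0] at g2
    refine ⟨g1.le, ?_⟩
    have e : k1 * R + d * R = k2 * R := by rw [hd]; ring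
    rw [e]
    exact g2.le

end Pool.Agent.MP_151d89_pr.H9
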