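import Pool.Agent.MP_151d89_pr.H9.Spec

/-!
Passage to the limit in the chord inequality without pressure.
-/

set_option autoImplicit false
open MeasureTheory Filter Topology

namespace Pool.Agent.MP_151d89_pr.H9
open Pool.Agent.MP_151d89_pr.H82 Pool.Agent.MP_151d89_pr.H33 Pool.Agent.MP_151d89_pr.H67
open Pool.Agent.MP_151d89_pr.H30 (nrm)
open Pool.Agent.MP_151d89_pr.H5 (ell AF)
open Pool.Agent.MP_151d89_pr.H55 (LipZ Lim nu)

namespace BrZP

/-- linear growth with rate a along the ultrafilter -/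
def TT (𝒰 : Ultrafilter ℝ) (f : ℝ → ℝ) (a : ℝ) : Prop :=
  Tendsto (fun R => f R / R) (𝒰 : Filter ℝ) (𝓝 a)

theorem pos {𝒰 : Ultrafilter ℝ} (hU : (𝒰 : Filter ℝ) ≤ atTop) :
    ∀ᶠ R : ℝ in (𝒰 : Filter ℝ), 0 < R := hU (eventually_gt_atTop 0)

theorem TT.fl {𝒰 : Ultrafilter ℝ} (hU : (𝒰 : Filter ℝ) ≤ atTop) (x : ℝ) :
    TT 𝒰 (fun R => ((⌊R * x⌋ : ℤ) : ℝ)) x := by
  have h0 : Tendsto (fun R : ℝ => x - R⁻¹) (𝒰 : Filter ℝ) (𝓝 (x - 0)) :=
    tendsto_const_nhds.sub (tendsto_inv_atTop_zero.mono_left hU)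
  rw [sub_zero] at h0
  refine tendsto_of_tendsto_of_tendsto_of_le_of_le' h0 tendsto_const_nhds ?_ ?_
  · filter_upwards [pos hU] with R hR
    rw [le_div_iff₀ hR, sub_mul, inv_mul_cancel₀ hR.ne']
    have := Int.sub_one_lt_floor (R * x)
    linarith [mul_comm R x]
  · filter_upwards [pos hU] with R hR
    rw [div_le_iff₀ hR]
    have := Int.floor_le (R * x)
    linarith [mul_comm R x]

theorem TT.lin {𝒰 : Ultrafilter ℝ} (hU : (𝒰 : Filter ℝ) ≤ atTop) (x : ℝ) :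
    TT 𝒰 (fun R => x * R) x := by
  refine (tendsto_const_nhds (x := x)).congr' ?_
  filter_upwards [pos hU] with R hR
  field_simp

theorem TT.add {𝒰 : Ultrafilter ℝ} {f g : ℝ → ℝ} {a b : ℝ} (hf : TT 𝒰 f a) (hg : TT 𝒰 g b) :
    TT 𝒰 (fun R => f R + g R) (a + b) := by
  have := Tendsto.add hf hg
  simpa only [TT, add_div] using this

theorem TT.sub {𝒰 : Ultrafilter ℝ} {f g : ℝ → ℝ} {a b : ℝ} (hf : TT 𝒰 f a) (hg : TT 𝒰 g b) :
    TT 𝒰 (fun R => f R - g R) (a - b) := by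
  have := Tendsto.sub hf hg
  simpa only [TT, sub_div] using this

theorem TT.smul {𝒰 : Ultrafilter ℝ} {f : ℝ → ℝ} {a : ℝ} (c : ℝ) (hf : TT 𝒰 f a) :
    TT 𝒰 (fun R => c * f R) (c * a) := by
  have := Tendsto.const_mul c hf
  simpa only [TT, mul_div_assoc] using this

theorem TT.zero {𝒰 : Ultrafilter ℝ} : TT 𝒰 (fun _ => 0) 0 := by
  simpa only [TT, zero_div] using tendsto_const_nhds

theorem TT.lt {𝒰 : Ultrafilter ℝ} (hU : (𝒰 : Filter ℝ) ≤ atTop) {f g : ℝ → ℝ} {a b : ℝ}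
    (hf : TT 𝒰 f a) (hg : TT 𝒰 g b) (hab : a < b) : ∀ᶠ R : ℝ in (𝒰 : Filter ℝ), f R < g R := by
  filter_upwards [pos hU, Tendsto.eventually_lt hf hg hab] with R hR h
  exact (div_lt_div_iff_of_pos_right hR).1 h

theorem bd {𝒰 : Ultrafilter ℝ} (hU : (𝒰 : Filter ℝ) ≤ atTop) {x B : ℝ} (hx : |x| < B) :
    ∀ᶠ R : ℝ in (𝒰 : Filter ℝ), |((⌊R * x⌋ : ℤ) : ℝ)| ≤ B * R := by
  obtain ⟨h1, h2⟩ := abs_lt.1 hx
  filter_upwards [TT.lt hU (TT.fl hU x) (TT.lin hU B) h2,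
    TT.lt hU (TT.lin hU (-B)) (TT.fl hU x) h1] with R a b
  rw [abs_le]
  constructor <;> linarith

theorem TT.nb (hS : H55.LimSeqStmt) {l : ℤ × ℤ → ℝ} {𝒰 : Ultrafilter ℝ} {h : ℝ × ℝ → ℝ}
    (hL : LipZ l) (hl : Lim l 𝒰 h) (p1 p2 : ℝ → ℤ) (z : ℝ × ℝ)
    (h1 : TT 𝒰 (fun R => (p1 R : ℝ)) z.1) (h2 : TT 𝒰 (fun R => (p2 R : ℝ)) z.2) :
    TT 𝒰 (fun R => nb l (p1 R, p2 R)) (nu h z) := by
  have h3 : TT 𝒰 (fun R => l (p1 R, p2 R)) (h z) :=
    hS l 𝒰 h hL hl (fun R => (p1 R, p2 R)) z h1 h2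
  have h4 := TT.smul (1 / 2) ((h1.add h2).sub h3)
  have e1 : (fun R => H9.nb l (p1 R, p2 R)) =
      fun R => 1 / 2 * ((p1 R : ℝ) + p2 R - l (p1 R, p2 R)) := by
    funext R
    simp only [H9.nb]
    ring
  have e2 : nu h z = 1 / 2 * (z.1 + z.2 - h z) := by
    simp only [nu]
    ring
  rw [e1, e2]
  exact h4

/-- the integer parameters at scale R -/
noncomputable def zpar (Ua Uc Ub k1 k2 a2 b2 c2 p1 q2 R : ℝ) : Par :=
  ⟨⌊R * Ua⌋, ⌊R * Uc⌋, ⌊R * Ub⌋, ⌊R * k1⌋, ⌊R * k1⌋, ⌊R * k2⌋, ⌊R * a2⌋, ⌊R * b2⌋, ⌊R * c2⌋,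
    ⌊R * c2⌋, ⌊R * p1⌋, ⌊R * q2⌋⟩

end BrZP

open BrZP

theorem brz_row (hS : H55.LimSeqStmt) : BrZStmt := by
  intro l 𝒰 h hL hl hZ h0 hfar a b c p q k1 k2 hk1 hk hac hcb hpa hqb ha hb hc hp hq hkp
  have hU := hl.1
  by_contra hcon
  push Not at hcon
  set Ua := H55.U a with hUa
  set Ub := H55.U b with hUb
  set Uc := H55.U c with hUc
  set G : ℝ := (k2 - k1) * ((Ub - Ua) * c.2 - (Ub - Uc) * a.2 - (Uc - Ua) * b.2) with hG
  have hG0 : 0 < G := mul_pos (by linarith) (by linarith)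
  set C : ℝ := (Uc - Ua) * (Ub - Uc) + (Ub - Ua) * (k2 - k1) with hC
  have hC0 : 0 < C := add_pos (mul_pos (by linarith) (by linarith))
    (mul_pos (by linarith) (by linarith))
  have hk2 : 0 < k2 := by linarith
  set η0 : ℝ := G / (4 * C * k2) with hη0
  have hη00 : 0 < η0 := by positivity
  obtain ⟨β, hβ, hβn⟩ := hfar η0 k2 (max 1 (k2 - q.2 + 1)) hη00
  have hβ1 : 1 ≤ β := le_trans (le_max_left _ _) hβ
  have hβ2 : k2 - q.2 + 1 ≤ β := le_trans (le_max_right _ _) hβ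
  have hβ0 : 0 < β := by linarith
  obtain ⟨η, hη, e1, e2, e3, e4, e5, e6, e7, e8, e9⟩ : ∃ η : ℝ, 0 < η ∧ k2 + η < nu h a ∧
      k2 + η < nu h b ∧ nu h c + η < k1 ∧ nu h p + η < k1 ∧ nu h q + η < k1 ∧
      k2 + η + η < p.1 ∧ k2 + η < nu h (η0 * β, -(2 * β)) ∧ η < 1 / 2 ∧
      (4 * C + 1) * η < G / 2 := by
    have t0 : Tendsto (fun η : ℝ => η) (𝓝[>] 0) (𝓝 0) := tendsto_id.mono_left nhdsWithin_le_nhds
    have ev : ∀ x y m : ℝ, x < y → ∀ᶠ η : ℝ in 𝓝[>] 0, x + m * η < y := fun x y m hxy => by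
      have t1 : Tendsto (fun η : ℝ => x + m * η) (𝓝[>] 0) (𝓝 (x + m * 0)) :=
        tendsto_const_nhds.add (t0.const_mul m)
      rw [mul_zero, add_zero] at t1
      exact t1.eventually_lt tendsto_const_nhds hxy
    have := (ev k2 _ 1 ha).and ((ev k2 _ 1 hb).and ((ev _ k1 1 hc).and ((ev _ k1 1 hp).and
      ((ev _ k1 1 hq).and ((ev k2 _ 2 hkp).and ((ev k2 _ 1 hβn).and
      ((ev 0 (1 / 2) 1 (by norm_num)).and ((ev 0 (G / 2) (4 * C + 1) (by linarith)).and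
      self_mem_nhdsWithin))))))))
    obtain ⟨η, a1, a2, a3, a4, a5, a6, a7, a8, a9, a10⟩ := this.exists
    exact ⟨η, a10, by linarith, by linarith, by linarith, by linarith, by linarith, by linarith,
      by linarith, by linarith, by linarith⟩
  set B : ℝ := |Ua| + |Uc| + |Ub| + |k1| + |k2| + |a.2| + |b.2| + |c.2| + |p.1| + |q.2| + |β| +
    |η0 * β| + 1 with hB
  have n1 := abs_nonneg Ua
  have n2 := abs_nonneg Uc
  have n3 := abs_nonneg Ub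
  have n4 := abs_nonneg k1
  have n5 := abs_nonneg k2
  have n6 := abs_nonneg a.2
  have n7 := abs_nonneg b.2
  have n8 := abs_nonneg c.2
  have n9 := abs_nonneg p.1
  have n10 := abs_nonneg q.2
  have n11 := abs_nonneg β
  have n12 := abs_nonneg (η0 * β)
  have F := fun x => TT.fl hU x
  have Lη := TT.lin hU η
  have Na : TT 𝒰 (fun R => nb l (⌊R * Ua⌋ + ⌊R * a.2⌋, ⌊R * a.2⌋)) (nu h a) :=
    TT.nb hS hL hl _ _ a (by
      have := (F Ua).add (F a.2)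
      simp only [hUa, H55.U, sub_add_cancel] at this ⊢
      simpa only [Int.cast_add] using this) (F a.2)
  have Nb : TT 𝒰 (fun R => nb l (⌊R * Ub⌋ + ⌊R * b.2⌋, ⌊R * b.2⌋)) (nu h b) :=
    TT.nb hS hL hl _ _ b (by
      have := (F Ub).add (F b.2)
      simp only [hUb, H55.U, sub_add_cancel] at this ⊢
      simpa only [Int.cast_add] using this) (F b.2)
  have Nc : TT 𝒰 (fun R => nb l (⌊R * Uc⌋ + ⌊R * c.2⌋, ⌊R * c.2⌋)) (nu h c) :=
    TT.nb hS hL hl _ _ c (by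
      have := (F Uc).add (F c.2)
      simp only [hUc, H55.U, sub_add_cancel] at this ⊢
      simpa only [Int.cast_add] using this) (F c.2)
  have Np : TT 𝒰 (fun R => nb l (⌊R * p.1⌋, ⌊R * p.1⌋ - ⌊R * Ua⌋)) (nu h p) :=
    TT.nb hS hL hl _ _ p (F p.1) (by
      have := (F p.1).sub (F Ua)
      have e : p.1 - Ua = p.2 := by
        rw [← hpa]
        simp only [H55.U]
        ring
      rw [e] at this
      simpa only [Int.cast_sub] using this)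
  have Nq : TT 𝒰 (fun R => nb l (⌊R * Ub⌋ + ⌊R * q.2⌋, ⌊R * q.2⌋)) (nu h q) :=
    TT.nb hS hL hl _ _ q (by
      have := (F Ub).add (F q.2)
      have e : Ub + q.2 = q.1 := by
        rw [← hqb]
        simp only [H55.U]
        ring
      rw [e] at this
      simpa only [Int.cast_add] using this) (F q.2)
  have N0 : TT 𝒰 (fun R => nb l (0, -(3 * ⌊R * β⌋))) (nu h (0, -(3 * β))) :=
    TT.nb hS hL hl (fun _ => 0) _ (0, -(3 * β)) (by simpa only [Int.cast_zero] using TT.zero) (by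
      have := TT.smul (-3) (F β)
      simpa only [Int.cast_neg, Int.cast_mul, Int.cast_ofNat, neg_mul] using this)
  rw [h0 (3 * β) (by linarith)] at N0
  have NX : TT 𝒰 (fun R => nb l (⌊R * (η0 * β)⌋, -(2 * ⌊R * β⌋))) (nu h (η0 * β, -(2 * β))) :=
    TT.nb hS hL hl _ _ (η0 * β, -(2 * β)) (F _) (by
      have := TT.smul (-2) (F β)
      simpa only [Int.cast_neg, Int.cast_mul, Int.cast_ofNat, neg_mul] using this)
  have key : ∀ᶠ R : ℝ in (𝒰 : Filter ℝ),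
      gap (zpar Ua Uc Ub k1 k2 a.2 b.2 c.2 p.1 q.2 R) ≤
        ((((⌊R * Uc⌋ : ℤ) : ℝ) - (⌊R * Ua⌋ : ℤ)) * ((⌊R * Ub⌋ : ℤ) - (⌊R * Uc⌋ : ℤ)) +
          ((⌊R * Ub⌋ : ℤ) - (⌊R * Ua⌋ : ℤ)) * ((⌊R * k2⌋ : ℤ) - (⌊R * k1⌋ : ℤ))) *
        (4 * (η * R) + (⌊R * k2⌋ : ℤ) * (⌊R * (η0 * β)⌋ : ℤ) / (⌊R * β⌋ : ℤ)) + η * R ^ 3 := by
    filter_upwards [hU (hZ B η hη), pos hU,
      TT.lt hU N0 Lη hη, TT.lt hU (TT.lin hU (-η)) N0 (by linarith),
      TT.lt hU (Lη.add Lη) (F β) (by linarith),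
      TT.lt hU TT.zero (F (η0 * β)) (by positivity),
      TT.lt hU ((F k2).add Lη) NX e7,
      TT.lt hU (F Ua) (F Uc) hac, TT.lt hU (F Uc) (F Ub) hcb, TT.lt hU (F k1) (F k2) hk,
      TT.lt hU ((F k2).add Lη) Na e1, TT.lt hU ((F k2).add Lη) Nb e2,
      TT.lt hU (Nc.add Lη) (F k1) e3, TT.lt hU (Np.add Lη) (F k1) e4,
      TT.lt hU (Nq.add Lη) (F k1) e5, TT.lt hU TT.zero (F k1) hk1,
      TT.lt hU (((F k2).add Lη).add Lη) (F p.1) e6,
      TT.lt hU (((F k2).sub (F β)).add Lη) (F q.2) (by linarith),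
      bd hU (show |Ua| < B by linarith), bd hU (show |Uc| < B by linarith),
      bd hU (show |Ub| < B by linarith), bd hU (show |k1| < B by linarith),
      bd hU (show |k2| < B by linarith), bd hU (show |a.2| < B by linarith),
      bd hU (show |b.2| < B by linarith), bd hU (show |c.2| < B by linarith),
      bd hU (show |p.1| < B by linarith), bd hU (show |q.2| < B by linarith),
      bd hU (show |β| < B by linarith), bd hU (show |η0 * β| < B by linarith)]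
      with R hz hR r1 r2 r3 r4 r5 r6 r7 r8 r9 r10 r11 r12 r13 r14 r15 r16
        b1 b2 b3 b4 b5 b6 b7 b8 b9 b10 b11 b12
    refine hz (η * R) ⌊R * β⌋ ⌊R * (η0 * β)⌋ (zpar Ua Uc Ub k1 k2 a.2 b.2 c.2 p.1 q.2 R)
      (by positivity) (abs_le.2 ⟨by linarith, r1.le⟩) r3.le (le_trans (le_abs_self _) b11)
      (by exact_mod_cast r4.le) (le_trans (le_abs_self _) b12) r5.le ?_ ?_
      (by exact_mod_cast r14.le) r15.le r16.le
    · intro x hx
      simp only [zpar, List.mem_cons, List.not_mem_nil, or_false] at hx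
      rcases hx with rfl | rfl | rfl | rfl | rfl | rfl | rfl | rfl | rfl | rfl | rfl | rfl <;>
        assumption
    · exact ⟨by exact_mod_cast r6, by exact_mod_cast r7, le_rfl, by exact_mod_cast r8.le, le_rfl,
        r9.le, r10.le, r11.le, r11.le, r12.le, r13.le⟩
  have t1 : Tendsto (fun R => gap (zpar Ua Uc Ub k1 k2 a.2 b.2 c.2 p.1 q.2 R) / R ^ 3)
      (𝒰 : Filter ℝ) (𝓝 G) := by
    have := Tendsto.mul (Tendsto.sub (F k2) (F k1))
      (Tendsto.sub (Tendsto.sub (Tendsto.mul (Tendsto.sub (F Ub) (F Ua)) (F c.2))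
        (Tendsto.mul (Tendsto.sub (F Ub) (F Uc)) (F a.2)))
        (Tendsto.mul (Tendsto.sub (F Uc) (F Ua)) (F b.2)))
    refine this.congr' ?_
    filter_upwards [pos hU] with R hR
    simp only [gap, zpar]
    field_simp
    ring
  have t2 : Tendsto (fun R =>
      (((((⌊R * Uc⌋ : ℤ) : ℝ) - (⌊R * Ua⌋ : ℤ)) * ((⌊R * Ub⌋ : ℤ) - (⌊R * Uc⌋ : ℤ)) +
          ((⌊R * Ub⌋ : ℤ) - (⌊R * Ua⌋ : ℤ)) * ((⌊R * k2⌋ : ℤ) - (⌊R * k1⌋ : ℤ))) *
        (4 * (η * R) + (⌊R * k2⌋ : ℤ) * (⌊R * (η0 * β)⌋ : ℤ) / (⌊R * β⌋ : ℤ)) + η * R ^ 3) / R ^ 3)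
      (𝒰 : Filter ℝ) (𝓝 (C * (4 * η + k2 * (η0 * β) / β) + η)) := by
    have := Tendsto.add (Tendsto.mul
      (Tendsto.add (Tendsto.mul (Tendsto.sub (F Uc) (F Ua)) (Tendsto.sub (F Ub) (F Uc)))
        (Tendsto.mul (Tendsto.sub (F Ub) (F Ua)) (Tendsto.sub (F k2) (F k1))))
      (Tendsto.add (tendsto_const_nhds (x := 4 * η))
        (Tendsto.div (Tendsto.mul (F k2) (F (η0 * β))) (F β) hβ0.ne')))
      (tendsto_const_nhds (x := η))
    refine this.congr' ?_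
    filter_upwards [pos hU, TT.lt hU TT.zero (F β) hβ0] with R hR hb0
    simp only [Pi.div_apply]
    field_simp
  have fin : G ≤ C * (4 * η + k2 * (η0 * β) / β) + η := by
    refine le_of_tendsto_of_tendsto t1 t2 ?_
    filter_upwards [key, pos hU] with R hk' hR
    exact div_le_div_of_nonneg_right hk' (by positivity)
  have e10 : C * (k2 * (η0 * β) / β) = G / 4 := by
    rw [hη0]
    field_simp
  nlinarith

end Pool.Agent.MP_151d89_pr.H9
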