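import Pool.Agent.MP_151d89_pr.H9.Spec
import Pool.Agent.MP_151d89_pr.H33.All
import Pool.Agent.MP_151d89_pr.H5.Sys
import Pool.Agent.MP_151d89_pr.H5.Law

/-!
Reduction to the standing hypotheses.
-/

set_option autoImplicit false
open MeasureTheory Filter Topology

namespace Pool.Agent.MP_151d89_pr.H9
open Pool.Agent.MP_151d89_pr.H82 Pool.Agent.MP_151d89_pr.H33 Pool.Agent.MP_151d89_pr.H67
open Pool.Agent.MP_151d89_pr.H5 (ell AF)

namespace RedA

theorem no_up {μ : Measure Conf} (hμ : Gibbs μ) (hT : Triv μ)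
    (hl : ∀ x K, μ {f | f x ≤ K} ≠ 0) :
    ∀ᵐ f ∂μ, ∀ x e : ℤ × ℤ, |e.1| + |e.2| = 1 →
      ¬ ∀ n : ℕ, f (x + (n : ℤ) • e) = f x + (n : ℤ) := by
  refine ae_all_iff.2 fun x => ae_all_iff.2 fun e => ?_
  by_cases he : |e.1| + |e.2| = 1
  · have h1 : ∀ᵐ f ∂μ, ∀ K : ℤ, f ∉ H82.Ray x e K := ae_all_iff.2 fun K =>
      measure_eq_zero_iff_ae_notMem.1 (H5.SysAux.ray_null hμ hT he K (hl x K))
    filter_upwards [h1] with f hf _ h
    refine hf (f x - 1) (Eventually.of_forall fun n => ?_)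
    have := h n
    omega
  · exact Eventually.of_forall fun _ h => absurd h he

end RedA

theorem red_row : RedStmt := by
  intro μ hμ hE
  have := hμ.1
  have hT : Triv μ := fun S h1 h2 h3 => zero_one hμ hE h1 h2 h3
  by_cases hA : ∃ x m, ∀ᵐ f ∂μ, f x < m
  · obtain ⟨x, m, h⟩ := hA
    obtain ⟨e, he, h'⟩ := finalAll μ hμ hE x m h
    exact Or.inl ⟨e, he, h'⟩
  by_cases hB : ∃ x t, ∀ᵐ f ∂μ, t < f x
  · obtain ⟨x, t, h⟩ := hB
    obtain ⟨e, he, h'⟩ := frozen hμ hE x t h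
    exact Or.inl ⟨e, he, fun u => (h' u).mono fun f hf => hf.2⟩
  refine Or.inr ⟨hμ, hT, ?_, ?_⟩
  · have hr : FinalAux.Iso (Equiv.refl _) := fun _ _ => rfl
    have h11 : (-1 : ℤ) * -1 = 1 := by norm_num
    have h1 := RedA.no_up hμ hT fun x K h => hB ⟨x, K, by
      filter_upwards [measure_eq_zero_iff_ae_notMem.1 h] with f hf
      simpa using hf⟩
    have h2 := RedA.no_up (FinalAux.gibbs_T hμ hr h11 0) (H5.triv_T hT (Equiv.refl _) (-1) 0)
      fun x K h => hA ⟨x, -K, by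
        have h3 := measure_eq_zero_iff_ae_notMem.1 h
        rw [FinalAux.ae_T μ _ h11] at h3
        filter_upwards [h3] with f hf
        simp only [FinalAux.T, Equiv.refl_apply] at hf
        omega⟩
    rw [FinalAux.ae_T μ _ h11] at h2
    filter_upwards [h1, h2] with f a1 a2 x e he
    refine ⟨a1 x e he, fun h => a2 x e he fun n => ?_⟩
    have := h n
    simp only [FinalAux.T, Equiv.refl_apply]
    omega
  · rintro ⟨f₀, h⟩
    exact hA ⟨(0, 0), f₀ (0, 0) + 1, h.mono fun f hf => by rw [hf]; omega⟩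

end Pool.Agent.MP_151d89_pr.H9
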