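import Pool.Agent.MP_151d89_pr.H9.BrCH
import Pool.Agent.MP_151d89_pr.H9.BrNB
import Pool.Agent.MP_151d89_pr.H9.BrZ
import Pool.Agent.MP_151d89_pr.H9.BrG
import Pool.Agent.MP_151d89_pr.H9.Red
import Pool.Agent.MP_151d89_pr.H9.Sym
import Pool.Agent.MP_151d89_pr.H55.Big
import Pool.Agent.MP_151d89_pr.H31.CH

/-!
The assembly with all finished rows inserted.
-/

set_option autoImplicit false
open MeasureTheory

namespace Pool.Agent.MP_151d89_pr.H9
open Pool.Agent.MP_151d89_pr.H82 Pool.Agent.MP_151d89_pr.H33 Pool.Agent.MP_151d89_pr.H67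
open Pool.Agent.MP_151d89_pr.H5 (AF)
open Pool.Agent.MP_151d89_pr.H30W

theorem top2 (hPsi : PsiStmt) (hMW : MWStmt) (hNB : NBStmt) (hP : PBStmt) (hC : CHFStmt)
    (hZ : ZFStmt) (hL : LabStmt) (μ : Measure Conf) (hμ : Gibbs μ) (hE : FinalAux.Ext μ) :
    ∃ e, AF μ e :=
  top H55.big hPsi hMW (H31.ch_row hP hC hL) hNB (H31.zv_row hP hZ hC hL) (brch_row H55.limSeq)
    (brnb_row H55.limSeq) (brz_row H55.limSeq) (brg_row H55.limSeq) red_row sym_row μ hμ hE

end Pool.Agent.MP_151d89_pr.H9
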