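import Pool.Agent.MP_151d89_pr.H9.BrKit

/-!
The chord inequality in the limit.
-/

set_option autoImplicit false
open MeasureTheory Filter Topology

namespace Pool.Agent.MP_151d89_pr.H9
open Pool.Agent.MP_151d89_pr.H55 (LipZ Lim nu U)

theorem brch_row (hS : H55.LimSeqStmt) : BrCHStmt := by
  intro l Ψ 𝒰 h hL hl hC X Y n0 ⟨B1, hq⟩ a b c d p q k1 k' k2 h0 h1 h2 h12 h3 h4 h5 h6 h7 h8
    g1 g2 g3 g4 g5 g6 r1 r2
  obtain ⟨m0, hm0, hg⟩ := geo_ev hS hL hl h1 h2 h3 h4 h5 h6 h7 h8 g1 g2 g3 g4 g5 g6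
  obtain ⟨B0, hB⟩ := bd_ev hl.1 a b c d p q k1 k' k2
  have F : ∀ x : ℝ, Tendsto (fun R : ℝ => ((⌊R * x⌋ : ℤ) : ℝ) / R) 𝒰 (𝓝 x) := tz_floor hl.1
  have key : ∀ ε : ℝ, 0 < ε → ε ≤ m0 → ε ≤ 1 → X + k2 - n0 + 3 * ε < p.1 →
      Y + k2 - n0 + 3 * ε < q.2 →
      (k2 - k1) * ((U b - U a) * c.2 - (U b - U c) * a.2 - (U c - U a) * b.2) -
        (U b - U a) * (k' - k1) * (c.2 - d.2) ≤
      (U c - U a) * (U b - U c) * (k1 - n0 + 4 * ε) +
        (U b - U a) * (k2 - k1) * (k2 - n0 + 4 * ε) + ε := by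
    intro ε hε e1 e2 e3 e4
    have L := lin_lim hl.1
    have T1 : Tendsto (fun R : ℝ =>
        (((⌊R * U c⌋ : ℤ) : ℝ) / R - ((⌊R * U a⌋ : ℤ) : ℝ) / R) *
          (((⌊R * U b⌋ : ℤ) : ℝ) / R - ((⌊R * U c⌋ : ℤ) : ℝ) / R) *
          (((⌊R * k1⌋ : ℤ) : ℝ) / R - n0 + 4 * ε) +
        (((⌊R * U b⌋ : ℤ) : ℝ) / R - ((⌊R * U a⌋ : ℤ) : ℝ) / R) *
          (((⌊R * k2⌋ : ℤ) : ℝ) / R - ((⌊R * k1⌋ : ℤ) : ℝ) / R) *
          (((⌊R * k2⌋ : ℤ) : ℝ) / R - n0 + 4 * ε) + ε) 𝒰 (𝓝 _) :=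
      (((((F (U c)).sub (F (U a))).mul ((F (U b)).sub (F (U c)))).mul
        (((F k1).sub_const n0).add_const (4 * ε))).add
        ((((F (U b)).sub (F (U a))).mul ((F k2).sub (F k1))).mul
          (((F k2).sub_const n0).add_const (4 * ε)))).add_const ε
    refine le_of_tendsto_of_tendsto (gap_lim hl.1 a b c d p q k1 k' k2) T1 ?_
    have A1 : Tendsto (fun R : ℝ => ((X + ε) * R + (((⌊R * k2⌋ : ℤ) : ℝ) - n0 * R)) / R) 𝒰
        (𝓝 (X + ε + (k2 - n0))) := by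
      refine ((L (X + ε)).add ((F k2).sub (L n0))).congr fun R => ?_
      ring
    have A2 : Tendsto (fun R : ℝ => ((Y + ε) * R + (((⌊R * k2⌋ : ℤ) : ℝ) - n0 * R)) / R) 𝒰
        (𝓝 (Y + ε + (k2 - n0))) := by
      refine ((L (Y + ε)).add ((F k2).sub (L n0))).congr fun R => ?_
      ring
    filter_upwards [hl.1 (hC (max (max B0 B1) 1) ε hε), hq ε hε, hg ε e1,
      hB (max (max B0 B1) 1) ((le_max_left _ _).trans (le_max_left _ _)), pos_ev hl.1,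
      ev_le hl.1 (m := 0) (L n0) (F k1) (by linarith),
      ev_le hl.1 (m := 2 * ε) A1 (F p.1) (by linarith),
      ev_le hl.1 (m := 2 * ε) A2 (F q.2) (by linarith)] with R a1 ⟨p', q', c1, c2, c3, c4, c5⟩
      a3 a4 hR a5 a6 a7
    have b1 : B1 * R ≤ max (max B0 B1) 1 * R :=
      mul_le_mul_of_nonneg_right ((le_max_right _ _).trans (le_max_left _ _)) hR.le
    have b2 : ε * R ≤ max (max B0 B1) 1 * R :=
      mul_le_mul_of_nonneg_right (e2.trans (le_max_right _ _)) hR.le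
    have := a1 (ε * R) (n0 * R) p' q' _ (by positivity) b2 c1 (c4.trans b1) (c5.trans b1) a4 a3
      (by simp only [PR]; linarith) (by simp only [PR]; linarith) (by simp only [PR]; linarith)
    rw [div_le_iff₀ (by positivity)]
    refine this.trans (le_of_eq ?_)
    simp only [PR]
    field_simp
  have p1 : 0 < (U c - U a) * (U b - U c) := mul_pos (by linarith) (by linarith)
  have p2 : 0 < (U b - U a) * (k2 - k1) := mul_pos (by linarith) (by linarith)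
  have p3 : 0 < k1 - n0 := by linarith
  have p4 : 0 < (U b - U a) * (k2 - k1) * (k2 - n0) := mul_pos p2 (by linarith)
  obtain ⟨ε, hε, e⟩ : ∃ ε : ℝ, 0 < ε ∧ ε ≤ min (min (min m0 1) (min (k1 - n0)
      ((U b - U a) * (k2 - k1) * (k2 - n0))))
      (min ((p.1 - (X + k2 - n0)) / 4) ((q.2 - (Y + k2 - n0)) / 4)) :=
    ⟨_, by
      simp only [lt_min_iff]
      exact ⟨⟨⟨hm0, one_pos⟩, p3, p4⟩, by linarith, by linarith⟩, le_rfl⟩
  simp only [le_min_iff] at e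
  obtain ⟨⟨⟨e1, e2⟩, e3, e4⟩, e5, e6⟩ := e
  have := key ε hε e1 e2 (by linarith) (by linarith)
  have q1 := mul_le_mul_of_nonneg_left e3 p1.le
  have q2 := mul_le_mul_of_nonneg_left (show ε ≤ k2 - n0 by linarith) p2.le
  have q3 := mul_pos p1 p3
  nlinarith

end Pool.Agent.MP_151d89_pr.H9
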