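import Pool.Agent.MP_151d89_pr.H9.Spec

/-!
Limits of integer parameters along an ultrafilter of scales.
-/

set_option autoImplicit false
open MeasureTheory Filter Topology

namespace Pool.Agent.MP_151d89_pr.H9
open Pool.Agent.MP_151d89_pr.H55 (LipZ Lim nu U)

/-- the integer sequence a grows like x times the scale -/
def Tz (𝒰 : Ultrafilter ℝ) (a : ℝ → ℤ) (x : ℝ) : Prop :=
  Tendsto (fun R => (a R : ℝ) / R) 𝒰 (𝓝 x)

variable {𝒰 : Ultrafilter ℝ} {a b : ℝ → ℤ} {x y : ℝ} {l : ℤ × ℤ → ℝ} {h : ℝ × ℝ → ℝ}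

theorem pos_ev (h𝒰 : (𝒰 : Filter ℝ) ≤ atTop) : ∀ᶠ R : ℝ in (𝒰 : Filter ℝ), 0 < R :=
  h𝒰 (eventually_gt_atTop 0)

theorem tz_floor (h𝒰 : (𝒰 : Filter ℝ) ≤ atTop) (x : ℝ) : Tz 𝒰 (fun R => ⌊R * x⌋) x := by
  have h0 : Tendsto (fun R : ℝ => x - R⁻¹) 𝒰 (𝓝 (x - 0)) :=
    tendsto_const_nhds.sub (tendsto_inv_atTop_zero.mono_left h𝒰)
  rw [sub_zero] at h0
  refine tendsto_of_tendsto_of_tendsto_of_le_of_le' h0 tendsto_const_nhds ?_ ?_
  · filter_upwards [pos_ev h𝒰] with R hR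
    rw [le_div_iff₀ hR, sub_mul, inv_mul_cancel₀ hR.ne']
    linarith [Int.lt_floor_add_one (R * x)]
  · filter_upwards [pos_ev h𝒰] with R hR
    rw [div_le_iff₀ hR]
    linarith [Int.floor_le (R * x)]

theorem Tz.add (ha : Tz 𝒰 a x) (hb : Tz 𝒰 b y) : Tz 𝒰 (fun R => a R + b R) (x + y) := by
  have := Tendsto.add ha hb
  refine this.congr fun R => ?_
  push_cast
  ring

theorem Tz.sub (ha : Tz 𝒰 a x) (hb : Tz 𝒰 b y) : Tz 𝒰 (fun R => a R - b R) (x - y) := by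
  have := Tendsto.sub ha hb
  refine this.congr fun R => ?_
  push_cast
  ring

theorem Tz.neg (ha : Tz 𝒰 a x) : Tz 𝒰 (fun R => -a R) (-x) := by
  have := Tendsto.neg ha
  refine this.congr fun R => ?_
  push_cast
  ring

theorem Tz.mul (c : ℤ) (ha : Tz 𝒰 a x) : Tz 𝒰 (fun R => c * a R) (c * x) := by
  have := Tendsto.const_mul (c : ℝ) ha
  refine this.congr fun R => ?_
  push_cast
  ring

theorem tz_zero : Tz 𝒰 (fun _ => 0) 0 := by
  simp only [Tz, Int.cast_zero, zero_div]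
  exact tendsto_const_nhds

/-- the lattice level function at integer points -/
theorem nb_lim (hS : H55.LimSeqStmt) (hL : LipZ l) (hl : Lim l 𝒰 h) (ha : Tz 𝒰 a x)
    (hb : Tz 𝒰 b y) : Tendsto (fun R => nb l (a R, b R) / R) 𝒰 (𝓝 (nu h (x, y))) := by
  have h1 := hS l 𝒰 h hL hl (fun R => (a R, b R)) (x, y) ha hb
  have h2 := ((Tendsto.add ha hb).sub h1).div_const 2
  refine h2.congr fun R => ?_
  simp only [nb]
  ring

/-- a strict inequality in the limit gives an inequality with margin -/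
theorem ev_le (h𝒰 : (𝒰 : Filter ℝ) ≤ atTop) {f g : ℝ → ℝ} {m : ℝ}
    (hf : Tendsto (fun R => f R / R) 𝒰 (𝓝 x)) (hg : Tendsto (fun R => g R / R) 𝒰 (𝓝 y))
    (hm : x + m < y) : ∀ᶠ R : ℝ in (𝒰 : Filter ℝ), f R + m * R ≤ g R := by
  filter_upwards [(hf.add_const m).eventually_lt hg hm, pos_ev h𝒰] with R h1 hR
  have h2 := mul_lt_mul_of_pos_right h1 hR
  rw [add_mul, div_mul_cancel₀ _ hR.ne', div_mul_cancel₀ _ hR.ne'] at h2
  exact h2.le

theorem Tz.lt (h𝒰 : (𝒰 : Filter ℝ) ≤ atTop) (ha : Tz 𝒰 a x) (hb : Tz 𝒰 b y) (hm : x < y) :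
    ∀ᶠ R : ℝ in (𝒰 : Filter ℝ), a R < b R := by
  filter_upwards [Tendsto.eventually_lt ha hb hm, pos_ev h𝒰] with R h1 hR
  exact_mod_cast (div_lt_div_iff_of_pos_right hR).1 h1

theorem Tz.bd (h𝒰 : (𝒰 : Filter ℝ) ≤ atTop) (ha : Tz 𝒰 a x) {B : ℝ} (hB : |x| < B) :
    ∀ᶠ R : ℝ in (𝒰 : Filter ℝ), |(a R : ℝ)| ≤ B * R := by
  filter_upwards [Tendsto.eventually_lt_const hB (Tendsto.abs ha), pos_ev h𝒰] with R h1 hR
  rw [abs_div, abs_of_pos hR, div_lt_iff₀ hR] at h1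
  exact h1.le

theorem lin_lim (h𝒰 : (𝒰 : Filter ℝ) ≤ atTop) (x : ℝ) :
    Tendsto (fun R : ℝ => x * R / R) 𝒰 (𝓝 x) := by
  refine tendsto_const_nhds.congr' ?_
  filter_upwards [pos_ev h𝒰] with R hR
  rw [mul_div_assoc, div_self hR.ne', mul_one]

/-- the integer parameters at scale R -/
noncomputable def PR (a b c d p q : ℝ × ℝ) (k1 k' k2 R : ℝ) : Par :=
  ⟨⌊R * U a⌋, ⌊R * U c⌋, ⌊R * U b⌋, ⌊R * k1⌋, ⌊R * k'⌋, ⌊R * k2⌋, ⌊R * a.2⌋, ⌊R * b.2⌋,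
    ⌊R * c.2⌋, ⌊R * d.2⌋, ⌊R * p.1⌋, ⌊R * q.2⌋⟩

theorem geo_ev (hS : H55.LimSeqStmt) (hL : LipZ l) (hl : Lim l 𝒰 h) {a b c d p q : ℝ × ℝ}
    {k1 k' k2 : ℝ} (h1 : k1 ≤ k') (h2 : k' ≤ k2) (h3 : U a < U c) (h4 : U c < U b)
    (h5 : U d = U c) (h6 : d.2 ≤ c.2) (h7 : U p = U a) (h8 : U q = U b) (g1 : k2 < nu h a)
    (g2 : k2 < nu h b) (g3 : nu h c < k') (g4 : nu h d < k1) (g5 : nu h p < k1)
    (g6 : nu h q < k1) : ∃ m0, 0 < m0 ∧ ∀ m, m ≤ m0 →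
      ∀ᶠ R : ℝ in (𝒰 : Filter ℝ), GeoZ l (m * R) (PR a b c d p q k1 k' k2 R) := by
  have F := tz_floor hl.1
  have e1 : nu h a = nu h (U a + a.2, a.2) := by simp [U]
  have e2 : nu h b = nu h (U b + b.2, b.2) := by simp [U]
  have e3 : nu h c = nu h (U c + c.2, c.2) := by simp [U]
  have e4 : nu h d = nu h (U c + d.2, d.2) := by rw [← h5]; simp [U]
  have e5 : nu h p = nu h (p.1, p.1 - U a) := by rw [← h7]; simp [U]
  have e6 : nu h q = nu h (U b + q.2, q.2) := by rw [← h8]; simp [U]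
  refine ⟨min (min (min (nu h a - k2) (nu h b - k2)) (min (k' - nu h c) (k1 - nu h d)))
    (min (k1 - nu h p) (k1 - nu h q)) / 2, by
      refine half_pos ?_
      simp only [lt_min_iff, sub_pos]
      exact ⟨⟨⟨g1, g2⟩, g3, g4⟩, g5, g6⟩, fun m hm => ?_⟩
  rw [le_div_iff₀ two_pos] at hm
  simp only [le_min_iff] at hm
  obtain ⟨⟨⟨m1, m2⟩, m3, m4⟩, m5, m6⟩ := hm
  filter_upwards [pos_ev hl.1, (F _).lt hl.1 (F _) h3, (F _).lt hl.1 (F _) h4,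
    ev_le hl.1 (m := m) (F k2) (nb_lim hS hL hl ((F (U a)).add (F a.2)) (F a.2))
      (by rw [← e1]; linarith),
    ev_le hl.1 (m := m) (F k2) (nb_lim hS hL hl ((F (U b)).add (F b.2)) (F b.2))
      (by rw [← e2]; linarith),
    ev_le hl.1 (m := m) (nb_lim hS hL hl ((F (U c)).add (F c.2)) (F c.2)) (F k')
      (by rw [← e3]; linarith),
    ev_le hl.1 (m := m) (nb_lim hS hL hl ((F (U c)).add (F d.2)) (F d.2)) (F k1)
      (by rw [← e4]; linarith),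
    ev_le hl.1 (m := m) (nb_lim hS hL hl (F p.1) ((F p.1).sub (F (U a)))) (F k1)
      (by rw [← e5]; linarith),
    ev_le hl.1 (m := m) (nb_lim hS hL hl ((F (U b)).add (F q.2)) (F q.2)) (F k1)
      (by rw [← e6]; linarith)] with R hR a1 a2 a3 a4 a5 a6 a7 a8
  exact ⟨a1, a2, Int.floor_le_floor (mul_le_mul_of_nonneg_left h1 hR.le),
    Int.floor_le_floor (mul_le_mul_of_nonneg_left h2 hR.le),
    Int.floor_le_floor (mul_le_mul_of_nonneg_left h6 hR.le), a3, a4, a5, a6, a7, a8⟩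

theorem bd_ev (h𝒰 : (𝒰 : Filter ℝ) ≤ atTop) (a b c d p q : ℝ × ℝ) (k1 k' k2 : ℝ) :
    ∃ B0, ∀ B, B0 ≤ B → ∀ᶠ R : ℝ in (𝒰 : Filter ℝ), (PR a b c d p q k1 k' k2 R).bd (B * R) := by
  refine ⟨|U a| + |U c| + |U b| + |k1| + |k'| + |k2| + |a.2| + |b.2| + |c.2| + |d.2| + |p.1| +
    |q.2| + 1, fun B hB => ?_⟩
  have F := fun x (hx : |x| < B) => (tz_floor h𝒰 x).bd h𝒰 hx
  have n1 := abs_nonneg (U a)
  have n2 := abs_nonneg (U c)
  have n3 := abs_nonneg (U b)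
  have n4 := abs_nonneg k1
  have n5 := abs_nonneg k'
  have n6 := abs_nonneg k2
  have n7 := abs_nonneg a.2
  have n8 := abs_nonneg b.2
  have n9 := abs_nonneg c.2
  have n10 := abs_nonneg d.2
  have n11 := abs_nonneg p.1
  have n12 := abs_nonneg q.2
  filter_upwards [F (U a) (by linarith), F (U c) (by linarith), F (U b) (by linarith),
    F k1 (by linarith), F k' (by linarith), F k2 (by linarith), F a.2 (by linarith),
    F b.2 (by linarith), F c.2 (by linarith), F d.2 (by linarith), F p.1 (by linarith),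
    F q.2 (by linarith)] with R a1 a2 a3 a4 a5 a6 a7 a8 a9 a10 a11 a12 x hx
  simp only [PR, List.mem_cons, List.not_mem_nil, or_false] at hx
  rcases hx with rfl | rfl | rfl | rfl | rfl | rfl | rfl | rfl | rfl | rfl | rfl | rfl <;>
    assumption

theorem gap_lim (h𝒰 : (𝒰 : Filter ℝ) ≤ atTop) (a b c d p q : ℝ × ℝ) (k1 k' k2 : ℝ) :
    Tendsto (fun R => gap (PR a b c d p q k1 k' k2 R) / R ^ 3) 𝒰
      (𝓝 ((k2 - k1) * ((U b - U a) * c.2 - (U b - U c) * a.2 - (U c - U a) * b.2) -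
        (U b - U a) * (k' - k1) * (c.2 - d.2))) := by
  have F : ∀ x : ℝ, Tendsto (fun R : ℝ => ((⌊R * x⌋ : ℤ) : ℝ) / R) 𝒰 (𝓝 x) := tz_floor h𝒰
  have := (((F k2).sub (F k1)).mul (((((F (U b)).sub (F (U a))).mul (F c.2)).sub
    (((F (U b)).sub (F (U c))).mul (F a.2))).sub (((F (U c)).sub (F (U a))).mul (F b.2)))).sub
    ((((F (U b)).sub (F (U a))).mul ((F k').sub (F k1))).mul ((F c.2).sub (F d.2)))
  refine this.congr' ?_
  filter_upwards [pos_ev h𝒰] with R hR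
  simp only [gap, PR]
  field_simp

end Pool.Agent.MP_151d89_pr.H9
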