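import Pool.Agent.MP_151d89_pr.H67E.Spec
import Pool.Agent.MP_151d89_pr.H35.Flip

/-!
Parallel towers, the up tower has the larger value: the link is placed at the end of the up tower.
-/

set_option autoImplicit false
open MeasureTheory Finset

namespace Pool.Agent.MP_151d89_pr.H9
open Pool.Agent.MP_151d89_pr.H82 Pool.Agent.MP_151d89_pr.H33 Pool.Agent.MP_151d89_pr.H67
  Pool.Agent.MP_151d89_pr.H30 Pool.Agent.MP_151d89_pr.H27 Pool.Agent.MP_151d89_pr.H45
  Pool.Agent.MP_151d89_pr.H67E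
open Pool.Agent.MP_151d89_pr.H30W (Leg al Hi Lo fl NoDesc)
open Classical

namespace R3B

variable {μ : Measure Conf} {φ : ℤ × ℤ → ℝ} {U : Finset (ℤ × ℤ)} {lam TV : ℝ}
  {A : Bool → ℤ × ℤ → ℝ}

theorem endsum (hμ : Gibbs μ) (m : Mv) (b : Bool) (y : ℤ × ℤ) (S : Finset Mv) :
    ∑ m' ∈ S, (if m'.1 = b ∧ pt b m'.2.1 m'.2.2 = y then pq μ m m' else 0) ≤ pp μ m := by
  rw [← sum_filter]
  refine disj_sum hμ _ (fun _ _ => (meas_Av _ _).inter (meas_Av _ _)) (meas_Av _ _)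
    (fun _ _ _ _ h => h.1) ?_
  rintro ⟨b1, x1, l1⟩ h1 ⟨b2, x2, l2⟩ h2 f - a1 a2
  obtain ⟨-, rfl, e1⟩ := mem_filter.1 h1
  obtain ⟨-, rfl, e2⟩ := mem_filter.1 h2
  have c1 : x1 = pt b2 y (-l1) := by rw [← e1]; simp [pt]
  have c2 : x2 = pt b2 y (-l2) := by rw [← e2]; simp [pt]
  subst c1 c2
  rw [H35.up_unique a1.2 a2.2]

theorem startsum (hμ : Gibbs μ) (m' : Mv) (b : Bool) (x : ℤ × ℤ) (S : Finset Mv) :
    ∑ m ∈ S, (if m.1 = b ∧ m.2.1 = x then pq μ m m' else 0) ≤ pp μ m' := by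
  rw [← sum_filter, pp, p_rev hμ]
  refine disj_sum hμ _ (fun _ _ => (meas_Av _ _).inter (meas_Av _ _)) (meas_Av _ _)
    (fun _ _ _ _ h => h.2) ?_
  rintro ⟨b1, x1, l1⟩ h1 ⟨b2, x2, l2⟩ h2 f - a1 a2
  obtain ⟨-, rfl, rfl⟩ := mem_filter.1 h1
  obtain ⟨-, rfl, rfl⟩ := mem_filter.1 h2
  rw [H35.dn_unique a1.1 a2.1]

/-- the site of the down tower next to the end of the up tower -/
def yy (s : ℤ) (m' : Mv) : ℤ × ℤ := pt (!m'.1) (pt m'.1 m'.2.1 m'.2.2) (-s)

theorem yy_eq {s : ℤ} {m m' : Mv} (h : R3 s m m') : ∃ j : ℕ, j ≤ m.2.2 ∧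
    yy s m' = pt m.1 m.2.1 j := by
  obtain ⟨e, i, h1, h2, h3⟩ := h
  refine ⟨m'.2.2 - i, by omega, ?_⟩
  rw [yy, e, Nat.cast_sub h1]
  have : m'.2.1 = m.2.1 + s • dir (!m.1) - (i : ℤ) • dir m.1 := by
    rw [← pt, ← h3, pt]; abel
  rw [this]
  simp only [pt, sub_smul, neg_smul]
  abel

theorem sumA (hμ : Gibbs μ) (s : ℤ) (n : ℕ) {H : Mv → ℤ × ℤ → ℝ} (hH : ∀ m y, 0 ≤ H m y) :
    ∑ m ∈ II n, ∑ m' ∈ II n, (if R3 s m m' then H m (yy s m') * pq μ m m' else 0) ≤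
      ∑ m ∈ TT n, pp μ m * ∑ t ∈ range (m.2.2 + 1), H m (pt m.1 m.2.1 t) := by
  refine le_trans (sum_le_sum fun m _ => ?_) (sum_le_sum_of_subset_of_nonneg
    (fun _ h => II_TT h) fun m _ _ => mul_nonneg (pp_nonneg μ m) (sum_nonneg fun _ _ => hH _ _))
  rw [mul_sum]
  refine le_trans (sum_le_sum (g := fun m' => ∑ t ∈ range (m.2.2 + 1), H m (pt m.1 m.2.1 t) *
    if m'.1 = m.1 ∧ pt m.1 m'.2.1 m'.2.2 = pt (!m.1) (pt m.1 m.2.1 t) s then pq μ m m' else 0)
    fun m' _ => ?_) ?_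
  · have nn : ∀ t ∈ range (m.2.2 + 1), 0 ≤ H m (pt m.1 m.2.1 (t : ℕ)) *
        if m'.1 = m.1 ∧ pt m.1 m'.2.1 m'.2.2 = pt (!m.1) (pt m.1 m.2.1 (t : ℕ)) s then pq μ m m'
        else 0 := fun t _ => mul_nonneg (hH _ _) (by split_ifs; exacts [pq_nonneg _ _ _, le_rfl])
    split_ifs with h
    · obtain ⟨j, h1, h2⟩ := yy_eq h
      refine le_trans (le_of_eq ?_) (single_le_sum nn (mem_range.2 (Nat.lt_succ_of_le h1)))
      rw [if_pos, h2]
      refine ⟨h.1, ?_⟩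
      rw [← h2, yy, h.1]
      simp [pt]
    · exact sum_nonneg nn
  · rw [sum_comm]
    refine sum_le_sum fun t _ => ?_
    rw [← mul_sum, mul_comm]
    exact mul_le_mul_of_nonneg_right (endsum hμ m _ _ _) (hH _ _)

theorem sumB (hμ : Gibbs μ) (s : ℤ) (n : ℕ) {K : Mv → ℝ} (hK : ∀ m, 0 ≤ K m) :
    ∑ m ∈ II n, ∑ m' ∈ II n, (if R3 s m m' then K m' * pq μ m m' else 0) ≤
      ∑ m ∈ TT n, pp μ m * ((m.2.2 + 1) * K m) := by
  rw [sum_comm]
  refine le_trans (sum_le_sum fun m' _ => ?_) (sum_le_sum_of_subset_of_nonneg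
    (fun _ h => II_TT h) fun m _ _ => mul_nonneg (pp_nonneg μ m)
      (mul_nonneg (by positivity) (hK _)))
  refine le_trans (sum_le_sum (g := fun m => ∑ t ∈ range (m'.2.2 + 1), K m' *
    if m.1 = m'.1 ∧ m.2.1 = pt (!m'.1) (pt m'.1 m'.2.1 t) (-s) then pq μ m m' else 0)
    fun m _ => ?_) ?_
  · have nn : ∀ t ∈ range (m'.2.2 + 1), 0 ≤ K m' *
        if m.1 = m'.1 ∧ m.2.1 = pt (!m'.1) (pt m'.1 m'.2.1 (t : ℕ)) (-s) then pq μ m m'
        else 0 := fun t _ => mul_nonneg (hK _) (by split_ifs; exacts [pq_nonneg _ _ _, le_rfl])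
    split_ifs with h
    · obtain ⟨e, i, h1, -, h3⟩ := h
      refine le_trans (le_of_eq ?_) (single_le_sum nn (mem_range.2 (Nat.lt_succ_of_le h1)))
      rw [if_pos]
      refine ⟨e.symm, ?_⟩
      rw [e, h3]
      simp [pt]
    · exact sum_nonneg nn
  · rw [sum_comm]
    refine (sum_le_card_nsmul _ _ (K m' * pp μ m') fun t _ => ?_).trans (le_of_eq ?_)
    · rw [← mul_sum]
      exact mul_le_mul_of_nonneg_left (startsum hμ m' _ _ _) (hK _)
    · rw [card_range, nsmul_eq_mul]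
      push_cast
      ring

theorem tail (hμ : Gibbs μ) (b : Bool) (x : ℤ × ℤ) (i N : ℕ) :
    ∑ j ∈ range N, pp μ (b, x, i + j) + μ.real {f | Rdg b x (i + N) f} =
      μ.real {f | Rdg b x i f} := by
  induction N with
  | zero => simp
  | succ N ih =>
    rw [sum_range_succ, ← ih, q_succ hμ b x (i + N), add_assoc]
    rfl

theorem p0 (h : Dat μ φ U lam TV A) (b : Bool) (x : ℤ × ℤ) :
    μ.real {f | Rdg b x 0 f} * A b x ≤ 1 :=
  (mul_le_mul_of_nonneg_right (real_mono h.gib fun _ hf a => (not_hi hf b x).2 a.2.1)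
    (h.A0 b x)).trans (h.a0 b x)

theorem ff (h : Dat μ φ U lam TV A) (N : ℕ) (b : Bool) (r : ℤ × ℤ) : FF μ N b r * A b r ≤ 2 := by
  have a1 : FF μ N b r ≤ ∑ i ∈ range (N + 1), μ.real {f | Rdg b (pt b r (-i)) i f} := by
    rw [sum_range_succ]
    refine le_trans (sum_le_sum fun i _ => ?_) (le_add_of_nonneg_right measureReal_nonneg)
    rw [← tail h.gib b _ i N]
    exact le_add_of_nonneg_right measureReal_nonneg
  rw [sum_range_succ'] at a1
  have a2 := (mul_le_mul_of_nonneg_left (h.A1 b r)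
    (sum_nonneg fun _ _ => measureReal_nonneg)).trans (dual h.gib h.tri b b r (range N))
  have a3 := p0 h b r
  simp only [Nat.cast_zero, neg_zero, pt_zero] at a1
  nlinarith [h.A0 b r]

theorem cover (h : Dat μ φ U lam TV A) (n : ℕ) :
    ∑ m ∈ TT n, pp μ m * ∑ t ∈ range (m.2.2 + 1),
      ww φ (!m.1) (pt m.1 m.2.1 t) * A m.1 (pt m.1 m.2.1 t) ≤ 4 * TV := by
  simp only [mul_sum]
  rw [sum_sigma']
  refine (sum_inj _ (univ ×ˢ box 0 (3 * n) ×ˢ range (2 * n + 1) ×ˢ range (2 * n + 1))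
    (fun a => (a.1.1, pt a.1.1 a.1.2.1 a.2, a.2, a.1.2.2 - a.2))
    (h := fun c => ww φ (!c.1) c.2.1 * A c.1 c.2.1 *
      pp μ (c.1, pt c.1 c.2.1 (-c.2.2.1), c.2.2.1 + c.2.2.2)) ?_ ?_ ?_ fun c _ =>
        mul_nonneg (mul_nonneg (ww_nonneg _ _ _) (h.A0 _ _)) (pp_nonneg _ _)).trans ?_
  · rintro ⟨⟨b, x, l⟩, t⟩ ha -
    simp only [mem_sigma, mem_TT, mem_range] at ha
    have := (NullP.nrm_pt b x t).1
    simp only [mem_product, mem_univ, true_and, mem_box0, mem_range]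
    omega
  · rintro ⟨⟨b, x, l⟩, t⟩ ha ⟨⟨b', x', l'⟩, t'⟩ ha' - - e
    simp only [mem_sigma, mem_range] at ha ha'
    simp only [Prod.mk.injEq] at e
    obtain ⟨rfl, e1, rfl, e2⟩ := e
    obtain rfl : l = l' := by omega
    obtain rfl : x = x' := by simpa [pt] using e1
    rfl
  · rintro ⟨⟨b, x, l⟩, t⟩ ha -
    simp only [mem_sigma, mem_range] at ha
    have e1 : pt b (pt b x t) (-t) = x := by simp [pt]
    have e2 : t + (l - t) = l := by omega
    simp only [e1, e2]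
    exact le_of_eq (mul_comm _ _)
  · simp only [sum_product, ← mul_sum]
    have key : ∀ b, ∑ y ∈ box 0 (3 * n), ww φ (!b) y * A b y * FF μ (2 * n + 1) b y ≤ 2 * TV :=
      fun b => by
        refine le_trans (sum_le_sum (g := fun y => 2 * ww φ (!b) y) fun y _ => ?_) ?_
        · nlinarith [ff h (2 * n + 1) b y, ww_nonneg φ (!b) y]
        · rw [← mul_sum]
          linarith [h.tv (!b) (box 0 (3 * n))]
    have k1 := key true
    have k2 := key false
    rw [Fintype.sum_bool]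
    simp only [FF] at k1 k2
    linarith

theorem side {a L : ℕ → ℝ} {c0 c1 κ : ℝ} (hL : ∀ l, 0 ≤ L l) (p0 : 0 ≤ c0) (p1 : 0 ≤ c1)
    (hκ : 0 ≤ κ) (h0 : a 0 ≤ c0) (h1 : a 1 ≤ c1 + 32 * κ * L 1)
    (h2 : ∀ k, a (k + 2) ≤ κ * (32 * L (k + 2) + 3 * L (k + 1) + 6 * L k)) (N : ℕ) :
    ∑ l ∈ range N, a l ≤ c0 + c1 + 41 * κ * ∑ l ∈ range N, L l := by
  have key : ∀ N, ∑ l ∈ range (N + 2), a l + κ * (6 * L N + 9 * L (N + 1)) ≤
      c0 + c1 + 41 * κ * ∑ l ∈ range (N + 2), L l := fun N => by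
    induction N with
    | zero =>
      simp only [zero_add, sum_range_succ, range_zero, sum_empty]
      nlinarith [mul_nonneg hκ (hL 0), mul_nonneg hκ (hL 1)]
    | succ N ih =>
      rw [sum_range_succ, sum_range_succ L]
      nlinarith [h2 N]
  match N with
  | 0 => simpa using add_nonneg p0 p1
  | 1 =>
    simp only [sum_range_succ, range_zero, sum_empty]
    nlinarith [mul_nonneg hκ (hL 0)]
  | N + 2 => nlinarith [key N, mul_nonneg hκ (hL N), mul_nonneg hκ (hL (N + 1))]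

/-- the tower lies in U -/
def In (U : Finset (ℤ × ℤ)) (m : Mv) : Prop := ∀ t : ℕ, t ≤ m.2.2 → pt m.1 m.2.1 t ∈ U

theorem In.len {m : Mv} (h : In U m) :
    ∑ t ∈ range (m.2.2 + 1), ind (pt m.1 m.2.1 t ∈ U) = m.2.2 + 1 := by
  have : ∀ t ∈ range (m.2.2 + 1), ind (pt m.1 m.2.1 (t : ℕ) ∈ U) = 1 := fun t ht => by
    rw [ind, if_pos (h t (Nat.le_of_lt_succ (mem_range.1 ht)))]
  rw [sum_congr rfl this]
  simp

theorem haz (h : Dat μ φ U lam TV A) (b : Bool) (x : ℤ × ℤ) (l : ℕ) :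
    pp μ (b, x, l + 1) * A b (pt b x (l + 1 : ℕ)) ≤ pp μ (b, x, l) :=
  (mul_le_mul (real_mono h.gib fun _ _ a => (H45.av_rdg a).1) (h.A1 b _) (h.A0 _ _)
    measureReal_nonneg).trans (ah h.gib h.tri b b x l)

theorem haz2 (h : Dat μ φ U lam TV A) (b : Bool) (x : ℤ × ℤ) (l : ℕ) :
    pp μ (b, x, l + 1) * A b (pt b x (l + 1 : ℕ)) ^ 2 ≤
      pp μ (b, x, l) * A b (pt b x l) + pp μ (b, x, l) := by
  have a1 := mul_le_mul_of_nonneg_right (haz h b x l) (h.A0 b (pt b x (l + 1 : ℕ)))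
  have a2 := h.A3 b (pt b x l)
  rw [H45.pt_add, ← Nat.cast_succ] at a2
  nlinarith [pp_nonneg μ (b, x, l)]

theorem link (h : Dat μ φ U lam TV A) (n : ℕ) :
    ∑ m ∈ TT n, pp μ m * ((m.2.2 + 1) * (ww φ (!m.1) (pt m.1 m.2.1 m.2.2) ^ 2 * ind (In U m))) ≤
      10 * lam * TV + 16 * lam ^ 2 * U.card + 41 * lam ^ 2 * LL μ n U := by
  have := h.gib.1
  have key : ∀ (b : Bool) (x : ℤ × ℤ), ∑ l ∈ range (2 * n + 1),
      pp μ (b, x, l) * ((l + 1) * (ww φ (!b) (pt b x l) ^ 2 * ind (In U (b, x, l)))) ≤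
      5 * lam * ww φ (!b) x + 8 * lam ^ 2 * ind (x ∈ U) + 41 * lam ^ 2 *
        ∑ l ∈ range (2 * n + 1), pp μ (b, x, l) * ∑ t ∈ range (l + 1), ind (pt b x t ∈ U) := by
    intro b x
    have q0 : pp μ (b, x, 0) * A b x ≤ 1 := (mul_le_mul_of_nonneg_right
      (real_mono h.gib fun _ _ a => (H45.av_rdg a).1) (h.A0 b x)).trans (p0 h b x)
    have q1 : pp μ (b, x, 0) ≤ 1 := measureReal_le_one
    have nL : ∀ l : ℕ, 0 ≤ pp μ (b, x, l) * ∑ t ∈ range (l + 1), ind (pt b x t ∈ U) := fun l =>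
      mul_nonneg (pp_nonneg _ _) (sum_nonneg fun _ _ => ind_nonneg _)
    have n0 := mul_nonneg h.lam0 (ww_nonneg φ (!b) x)
    have n1 := mul_nonneg (sq_nonneg lam) (ind_nonneg (x ∈ U))
    refine side nL (by linarith) (by linarith) (sq_nonneg _) ?_ ?_ (fun k => ?_) _
    · have := h.edge (!b) x (pp_nonneg μ (b, x, 0)) q1 (by rwa [Bool.not_not])
      simp only [Nat.cast_zero, pt_zero, zero_add, one_mul, ind]
      split_ifs <;> nlinarith
    · by_cases e : In U (b, x, 1)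
      · have a1 := e.len
        have a2 := e 0 (Nat.zero_le _)
        have a3 := (h.edge' (!b) (pt b x (1 : ℕ))).2
        have a4 := haz2 h b x 0
        simp only [Nat.cast_zero, pt_zero, zero_add, Bool.not_not] at a1 a2 a3 a4
        rw [a1, ind, ind, if_pos e, if_pos a2]
        have a5 := mul_le_mul_of_nonneg_left a3 (pp_nonneg μ (b, x, 1))
        have a6 := mul_le_mul_of_nonneg_left (a4.trans (add_le_add q0 q1)) (sq_nonneg lam)
        push_cast at *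
        nlinarith
      · rw [ind, if_neg e]
        nlinarith [mul_nonneg (sq_nonneg lam) (nL 1)]
    · by_cases e : In U (b, x, k + 2)
      · have a0 := e.len
        have a1 := In.len (m := (b, x, k + 1)) fun t ht => e t (Nat.le_succ_of_le ht)
        have a2 := In.len (m := (b, x, k)) fun t ht => e t (le_add_right ht)
        have a3 := (h.edge' (!b) (pt b x (k + 2 : ℕ))).2
        have a4 := (haz2 h b x (k + 1)).trans (add_le_add (haz h b x k) le_rfl)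
        simp only [Bool.not_not] at a0 a1 a2 a3 a4
        rw [a0, a1, a2, ind, if_pos e]
        have a5 := (mul_le_mul_of_nonneg_left a3 (pp_nonneg μ (b, x, k + 2)))
        have a6 := mul_le_mul_of_nonneg_left a4 (sq_nonneg lam)
        have a7 : pp μ (b, x, k + 2) * ww φ (!b) (pt b x (k + 2 : ℕ)) ^ 2 ≤ lam ^ 2 *
            (2 * pp μ (b, x, k) + 2 * pp μ (b, x, k + 1) + 32 * pp μ (b, x, k + 2)) := by
          nlinarith
        have a8 := mul_le_mul_of_nonneg_left a7 (show (0 : ℝ) ≤ k + 3 by positivity)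
        have a9 := mul_nonneg (mul_nonneg (sq_nonneg lam) (pp_nonneg μ (b, x, k)))
          (Nat.cast_nonneg (α := ℝ) k)
        have a10 := mul_nonneg (mul_nonneg (sq_nonneg lam) (pp_nonneg μ (b, x, k + 1)))
          (Nat.cast_nonneg (α := ℝ) k)
        push_cast at *
        nlinarith
      · rw [ind, if_neg e, mul_zero, mul_zero, mul_zero]
        exact mul_nonneg (sq_nonneg _) (by linarith [nL k, nL (k + 1), nL (k + 2)])
  have k2 : ∀ b : Bool, ∑ x ∈ box 0 n, (5 * lam * ww φ (!b) x + 8 * lam ^ 2 * ind (x ∈ U)) ≤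
      5 * lam * TV + 8 * lam ^ 2 * U.card := fun b => by
    rw [sum_add_distrib, ← mul_sum, ← mul_sum]
    refine add_le_add (mul_le_mul_of_nonneg_left (h.tv _ _) (by linarith [h.lam0]))
      (mul_le_mul_of_nonneg_left ?_ (by positivity))
    refine (sum_inj _ U id (h := fun _ => 1) (fun x _ hx => ?_) (fun _ _ _ _ _ _ e => e)
      (fun x _ _ => ?_) fun _ _ => zero_le_one).trans (by simp)
    · by_contra e
      exact hx (by rw [ind, if_neg (show x ∉ U from e)])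
    · unfold ind
      split_ifs <;> norm_num
  simp only [LL, TT, sum_product]
  refine (sum_le_sum fun b _ => sum_le_sum fun x _ => key b x).trans ?_
  have k3 := k2 true
  have k4 := k2 false
  simp only [Fintype.sum_bool, sum_add_distrib, ← mul_sum] at k3 k4 ⊢
  linarith

theorem term (s : ℤ) {m m' : Mv} (h2 : ps φ m < ps φ m') :
    (ps φ m - ps φ m') ^ 2 ≤ 2 * (φ (yy s m') - ps φ m) ^ 2 +
      2 * (φ (pt m'.1 m'.2.1 m'.2.2) - φ (yy s m')) ^ 2 := by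
  have a1 := ps_le φ m' le_rfl
  have a2 : (ps φ m - ps φ m') ^ 2 ≤ (φ (pt m'.1 m'.2.1 m'.2.2) - ps φ m) ^ 2 := by nlinarith
  nlinarith [sq_nonneg (2 * φ (yy s m') - ps φ m - φ (pt m'.1 m'.2.1 m'.2.2))]

end R3B

open R3B in
theorem r3b_row (s : ℤ) (hs : s = 1 ∨ s = -1) : PStmt' fun φ => R3b φ s := by
  intro μ φ U lam TV A h n
  have q1 := QQ_nonneg μ n φ
  have q2 := mul_nonneg h.lam0 h.tv0
  have q3 := mul_nonneg (sq_nonneg lam) (LL_nonneg μ n U)
  have q4 := mul_nonneg (sq_nonneg lam) (Nat.cast_nonneg (α := ℝ) U.card)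
  have gen : ∀ (H : Mv → ℤ × ℤ → ℝ) (K : Mv → ℝ), (∀ m y, 0 ≤ H m y) → (∀ m, 0 ≤ K m) →
      (∀ m m', R3 s m m' → In U m' → 2 * (φ (yy s m') - ps φ m) ^ 2 +
        2 * (φ (pt m'.1 m'.2.1 m'.2.2) - φ (yy s m')) ^ 2 ≤ H m (yy s m') + K m') →
      Pc μ n φ (R3b φ s) ≤
        ∑ m ∈ TT n, pp μ m * ∑ t ∈ range (m.2.2 + 1), H m (pt m.1 m.2.1 t) +
          ∑ m ∈ TT n, pp μ m * ((m.2.2 + 1) * K m) := fun H K hH hK hb => by
    refine le_trans ?_ (add_le_add (sumA h.gib s n hH) (sumB h.gib s n hK))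
    rw [← sum_add_distrib]
    refine sum_le_sum fun m _ => ?_
    rw [← sum_add_distrib]
    refine sum_le_sum fun m' _ => ?_
    by_cases e : R3 s m m'
    · rw [if_pos e, if_pos e, ← add_mul]
      split_ifs with e'
      · exact mul_le_mul_of_nonneg_right ((term s e'.2).trans (hb m m' e fun t ht => h.sub e'.2 ht))
          (pq_nonneg _ _ _)
      · exact mul_nonneg (add_nonneg (hH _ _) (hK _)) (pq_nonneg _ _ _)
    · rw [if_neg e, if_neg e, if_neg fun a : R3b φ s m m' => e a.1, add_zero]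
  rcases hs with rfl | rfl
  · have k1 := gen (fun m y => 2 * (φ y - ps φ m) ^ 2 + 4 * lam * (ww φ (!m.1) y * A m.1 y))
      (fun m => 64 * lam ^ 2 * ind (In U m))
      (fun m y => add_nonneg (by positivity) (mul_nonneg (by linarith [h.lam0])
        (mul_nonneg (ww_nonneg _ _ _) (h.A0 _ _))))
      (fun m => mul_nonneg (by positivity) (ind_nonneg _)) fun m m' e e' => by
        have a1 := (h.edge' (!m.1) (yy 1 m')).1
        have a2 : yy 1 m' + dir (!m.1) = pt m'.1 m'.2.1 m'.2.2 := by rw [yy, e.1]; simp [pt]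
        have a3 : ww φ (!m.1) (yy 1 m') ^ 2 = (φ (pt m'.1 m'.2.1 m'.2.2) - φ (yy 1 m')) ^ 2 := by
          rw [ww, sq_abs, a2]
        rw [Bool.not_not] at a1
        rw [ind, if_pos e']
        linarith
    have k2 := mul_le_mul_of_nonneg_left (cover h n) h.lam0
    have k3 : ∑ m ∈ TT n, pp μ m * ((m.2.2 + 1) * (64 * lam ^ 2 * ind (In U m))) ≤
        64 * lam ^ 2 * LL μ n U := by
      rw [LL, mul_sum]
      refine sum_le_sum fun m _ => ?_
      by_cases e : In U m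
      · rw [e.len, ind, if_pos e]
        exact le_of_eq (by ring)
      · rw [ind, if_neg e, mul_zero, mul_zero, mul_zero]
        exact mul_nonneg (by positivity)
          (mul_nonneg (pp_nonneg _ _) (sum_nonneg fun _ _ => ind_nonneg _))
    have k4 : ∑ m ∈ TT n, pp μ m * ∑ t ∈ range (m.2.2 + 1), (2 * (φ (pt m.1 m.2.1 t) - ps φ m) ^ 2
        + 4 * lam * (ww φ (!m.1) (pt m.1 m.2.1 t) * A m.1 (pt m.1 m.2.1 t))) = 2 * QQ μ n φ +
        4 * (lam * ∑ m ∈ TT n, pp μ m * ∑ t ∈ range (m.2.2 + 1),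
          ww φ (!m.1) (pt m.1 m.2.1 t) * A m.1 (pt m.1 m.2.1 t)) := by
      simp only [QQ, os, mul_sum, ← sum_add_distrib]
      exact sum_congr rfl fun _ _ => sum_congr rfl fun _ _ => by ring
    rw [k4] at k1
    simp only [Bd]
    nlinarith
  · have k1 := gen (fun m y => 2 * (φ y - ps φ m) ^ 2)
      (fun m => 2 * (ww φ (!m.1) (pt m.1 m.2.1 m.2.2) ^ 2 * ind (In U m)))
      (fun m y => by positivity)
      (fun m => mul_nonneg (by positivity) (mul_nonneg (sq_nonneg _) (ind_nonneg _)))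
      fun m m' e e' => by
        have a2 : pt m'.1 m'.2.1 m'.2.2 + dir (!m'.1) = yy (-1) m' := by rw [yy]; simp [pt]
        rw [ind, if_pos e', ww, sq_abs, a2]
        exact le_of_eq (by ring)
    have k2 := link h n
    have k3 : ∑ m ∈ TT n, pp μ m * ((m.2.2 + 1) *
        (2 * (ww φ (!m.1) (pt m.1 m.2.1 m.2.2) ^ 2 * ind (In U m)))) = 2 * ∑ m ∈ TT n, pp μ m *
          ((m.2.2 + 1) * (ww φ (!m.1) (pt m.1 m.2.1 m.2.2) ^ 2 * ind (In U m))) := by
      rw [mul_sum]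
      exact sum_congr rfl fun _ _ => by ring
    have k4 : ∑ m ∈ TT n, pp μ m * ∑ t ∈ range (m.2.2 + 1), 2 * (φ (pt m.1 m.2.1 t) - ps φ m) ^ 2
        = 2 * QQ μ n φ := by
      simp only [QQ, os, mul_sum]
      exact sum_congr rfl fun _ _ => sum_congr rfl fun _ _ => by ring
    rw [k3, k4] at k1
    simp only [Bd]
    nlinarith

end Pool.Agent.MP_151d89_pr.H9
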